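import Mathlib

/-!
# A family of groups acting on the binary tree

Common definitions for the files in this folder.  The vertices of the binary tree are the finite
words over `Bool`; for a sequence `w` of symbols in `Fin 3` the group `G w` is generated by the
flip `A` and by a copy `B w` of the Klein four group (these are Grigorchuk's groups).
-/

set_option autoImplicit false

namespace Pool.Agent.SlowLaws

/-- vertices of the binary tree -/
abbrev V : Type := List Bool

/-- the Klein four group, additively -/
abbrev K : Type := ZMod 2 × ZMod 2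

/-- sequences of symbols -/
abbrev Sq : Type := ℕ → Fin 3

/-- the shifted sequence -/
def sh (w : Sq) : Sq := fun n => w (n + 1)

/-- the three nontrivial characters of the Klein four group -/
def phi : Fin 3 → K → ZMod 2
  | 0, k => k.1
  | 1, k => k.2
  | 2, k => k.1 + k.2

/-- the nontrivial element of the Klein four group killed by the character `phi s` -/
def let3 : Fin 3 → K
  | 0 => (0, 1)
  | 1 => (1, 0)
  | 2 => (1, 1)

/-- flip of the first letter -/
def flip : V → V
  | [] => []
  | h :: t => (!h) :: t

/-- the action of the Klein four group attached to a sequence of symbols -/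
def bfun (k : K) : V → Sq → V
  | [], _ => []
  | false :: t, w => false :: (if phi (w 0) k = 0 then t else flip t)
  | true :: t, w => true :: bfun k t (sh w)

theorem flip_flip (v : V) : flip (flip v) = v := by
  cases v with
  | nil => rfl
  | cons h t => simp [flip]

theorem phi_add (s : Fin 3) (k l : K) : phi s (k + l) = phi s k + phi s l := by
  revert s k l; decide

theorem phi_zero (s : Fin 3) : phi s 0 = 0 := by
  revert s; decide

theorem bfun_add (k l : K) (v : V) : ∀ w : Sq, bfun (k + l) v w = bfun k (bfun l v w) w := by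
  induction v with
  | nil => intro w; rfl
  | cons h t ih =>
    intro w
    cases h with
    | false =>
      simp only [bfun, phi_add]
      have h2 : ∀ x : ZMod 2, x = 0 ∨ x = 1 := by decide
      rcases h2 (phi (w 0) k) with h | h <;> rcases h2 (phi (w 0) l) with h' | h' <;>
        simp [h, h', flip_flip, show (1 : ZMod 2) + 1 = 0 from by decide]
    | true => simp only [bfun]; rw [ih]

theorem bfun_zero (v : V) : ∀ w : Sq, bfun 0 v w = v := by
  induction v with
  | nil => intro w; rfl
  | cons h t ih =>
    intro w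
    cases h with
    | false => simp [bfun, phi_zero]
    | true => simp [bfun, ih]

theorem K_add_self (k : K) : k + k = 0 := by
  revert k; decide

/-- the flip as a permutation -/
def A : Equiv.Perm V where
  toFun := flip
  invFun := flip
  left_inv := flip_flip
  right_inv := flip_flip

/-- the action of the Klein four group, by permutations -/
def B (w : Sq) (k : K) : Equiv.Perm V where
  toFun := fun v => bfun k v w
  invFun := fun v => bfun k v w
  left_inv := fun v => by
    show bfun k (bfun k v w) w = v
    rw [← bfun_add, K_add_self, bfun_zero]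
  right_inv := fun v => by
    show bfun k (bfun k v w) w = v
    rw [← bfun_add, K_add_self, bfun_zero]

@[simp] theorem A_nil : A [] = [] := rfl
@[simp] theorem A_cons (h : Bool) (t : V) : A (h :: t) = (!h) :: t := rfl
@[simp] theorem B_nil (w : Sq) (k : K) : B w k [] = [] := rfl
@[simp] theorem B_true (w : Sq) (k : K) (t : V) :
    B w k (true :: t) = true :: B (sh w) k t := rfl

/-- `A` or the identity -/
def AA (e : ZMod 2) : Equiv.Perm V := if e = 0 then 1 else A

theorem B_false (w : Sq) (k : K) (t : V) :
    B w k (false :: t) = false :: AA (phi (w 0) k) t := by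
  show bfun k (false :: t) w = _
  by_cases h : phi (w 0) k = 0
  · simp [bfun, h, AA]
  · simp [bfun, h, AA]; rfl

theorem A_mul_A : A * A = 1 := by
  ext v : 1
  exact flip_flip v

theorem B_zero (w : Sq) : B w 0 = 1 := by
  ext v : 1
  exact bfun_zero v w

theorem B_add (w : Sq) (k l : K) : B w (k + l) = B w k * B w l := by
  ext v : 1
  exact bfun_add k l v w

theorem B_mul_self (w : Sq) (k : K) : B w k * B w k = 1 := by
  rw [← B_add, K_add_self, B_zero]

theorem A_inv : A⁻¹ = A := by
  rw [inv_eq_iff_mul_eq_one]; exact A_mul_A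

theorem B_inv (w : Sq) (k : K) : (B w k)⁻¹ = B w k := by
  rw [inv_eq_iff_mul_eq_one]; exact B_mul_self w k

/-- the generators of the group attached to a sequence of symbols -/
def gens (w : Sq) : Set (Equiv.Perm V) := {A, B w (0, 1), B w (1, 0), B w (1, 1)}

/-- the group attached to a sequence of symbols -/
def G (w : Sq) : Subgroup (Equiv.Perm V) := Subgroup.closure (gens w)

/-- the element `B k · A · B k₁ · A · B k₂ ⋯ A · B kₘ` -/
def ev (w : Sq) (k : K) (l : List K) : Equiv.Perm V :=
  B w k * (l.map (fun x => A * B w x)).prod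

theorem ev_nil (w : Sq) (k : K) : ev w k [] = B w k := by simp [ev]

theorem ev_cons (w : Sq) (k x : K) (l : List K) :
    ev w k (x :: l) = B w k * (A * ev w x l) := by
  simp [ev, mul_assoc]

theorem A_mul_ev (w : Sq) (k : K) (l : List K) : A * ev w k l = ev w 0 (k :: l) := by
  rw [ev_cons, B_zero, one_mul]

theorem B_mul_ev (w : Sq) (x k : K) (l : List K) : B w x * ev w k l = ev w (x + k) l := by
  simp [ev, B_add, mul_assoc]

theorem K_cases (k : K) : k = 0 ∨ k = (0, 1) ∨ k = (1, 0) ∨ k = (1, 1) := by
  revert k; decide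

theorem A_mem (w : Sq) : A ∈ G w := Subgroup.subset_closure (by simp [gens])

theorem B_mem (w : Sq) (k : K) : B w k ∈ G w := by
  rcases K_cases k with h | h | h | h
  · rw [h, B_zero]; exact one_mem _
  all_goals exact Subgroup.subset_closure (by simp [gens, h])

theorem ev_mem (w : Sq) (k : K) (l : List K) : ev w k l ∈ G w := by
  refine mul_mem (B_mem w k) (list_prod_mem ?_)
  intro x hx
  rw [List.mem_map] at hx
  obtain ⟨y, _, rfl⟩ := hx
  exact mul_mem (A_mem w) (B_mem w y)

/-- every element of `G w` is of the form `ev w k l` -/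
theorem exists_ev {w : Sq} {g : Equiv.Perm V} (hg : g ∈ G w) : ∃ k l, ev w k l = g := by
  have key : ∀ x ∈ gens w, ∀ k l, ∃ k' l', ev w k' l' = x * ev w k l := by
    intro x hx k l
    simp only [gens, Set.mem_insert_iff, Set.mem_singleton_iff] at hx
    rcases hx with h | h | h | h
    · exact ⟨0, k :: l, by rw [h, A_mul_ev]⟩
    all_goals exact ⟨_, l, by rw [h, B_mul_ev]⟩
  have hinv : ∀ x ∈ gens w, x⁻¹ = x := by
    intro x hx
    simp only [gens, Set.mem_insert_iff, Set.mem_singleton_iff] at hx
    rcases hx with h | h | h | h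
    · rw [h, A_inv]
    all_goals rw [h, B_inv]
  refine Subgroup.closure_induction_left (p := fun x _ => ∃ k l, ev w k l = x) ?_ ?_ ?_ hg
  · exact ⟨0, [], by rw [ev_nil, B_zero]⟩
  · intro x hx y _ hy
    obtain ⟨k, l, rfl⟩ := hy
    exact key x hx k l
  · intro x hx y _ hy
    obtain ⟨k, l, rfl⟩ := hy
    rw [hinv x hx]
    exact key x hx k l

theorem mem_G_iff {w : Sq} {g : Equiv.Perm V} : g ∈ G w ↔ ∃ k l, ev w k l = g :=
  ⟨exists_ev, fun ⟨k, l, h⟩ => h ▸ ev_mem w k l⟩

/-- `g` fixes the two vertices of level one and has sections `g0`, `g1` there -/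
def Dec (g g0 g1 : Equiv.Perm V) : Prop :=
  g [] = [] ∧ (∀ t, g (false :: t) = false :: g0 t) ∧ (∀ t, g (true :: t) = true :: g1 t)

theorem Dec.mul {g g0 g1 h h0 h1 : Equiv.Perm V} (hg : Dec g g0 g1) (hh : Dec h h0 h1) :
    Dec (g * h) (g0 * h0) (g1 * h1) := by
  obtain ⟨a, b, c⟩ := hg
  obtain ⟨a', b', c'⟩ := hh
  refine ⟨?_, ?_, ?_⟩
  · simp [a, a']
  · intro t; simp [b', b]
  · intro t; simp [c', c]

theorem Dec.one : Dec 1 1 1 := ⟨rfl, fun _ => rfl, fun _ => rfl⟩

theorem Dec.inv {g g0 g1 : Equiv.Perm V} (hg : Dec g g0 g1) : Dec g⁻¹ g0⁻¹ g1⁻¹ := by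
  obtain ⟨a, b, c⟩ := hg
  refine ⟨?_, ?_, ?_⟩
  · rw [Equiv.Perm.inv_eq_iff_eq, a]
  · intro t
    rw [Equiv.Perm.inv_eq_iff_eq, b]; simp
  · intro t
    rw [Equiv.Perm.inv_eq_iff_eq, c]; simp

/-- `g` is determined by its sections -/
theorem Dec.unique {g h g0 g1 : Equiv.Perm V} (hg : Dec g g0 g1) (hh : Dec h g0 g1) : g = h := by
  obtain ⟨a, b, c⟩ := hg
  obtain ⟨a', b', c'⟩ := hh
  ext v : 1
  match v with
  | [] => rw [a, a']
  | false :: t => rw [b, b']
  | true :: t => rw [c, c']

end Pool.Agent.SlowLaws
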