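import Pool.Agent.SlowLaws.Laws

/-!
# Balls are larger than every polynomial
-/

set_option autoImplicit false

namespace Pool.Agent.SlowLaws

/-- the ball of radius `n` with respect to the four generators -/
def Ball (w : Sq) (n : ℕ) : Set (Equiv.Perm V) :=
  {g | ∃ l : List (Equiv.Perm V), l.length ≤ n ∧ (∀ x ∈ l, x ∈ gens w) ∧ l.prod = g}

/-- the four generators, indexed -/
def genf (w : Sq) : Fin 4 → Equiv.Perm V := ![A, B w (0, 1), B w (1, 0), B w (1, 1)]

theorem range_genf (w : Sq) : Set.range (genf w) = gens w := by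
  ext x
  simp only [Set.mem_range, gens, Set.mem_insert_iff, Set.mem_singleton_iff, Fin.exists_fin_succ,
    genf]
  simp [eq_comm]

theorem Ball_finite (w : Sq) (n : ℕ) : (Ball w n).Finite := by
  refine ((List.finite_length_le (Fin 4) n).image (fun l => (l.map (genf w)).prod)).subset ?_
  rintro g ⟨l, hl, hx, rfl⟩
  have : l ∈ Set.range (List.map (genf w)) := by
    rw [Set.range_list_map]
    intro x hx'
    rw [range_genf]; exact hx x hx'
  obtain ⟨l', rfl⟩ := this
  exact ⟨l', by simpa using hl, rfl⟩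

theorem Ball.mul {w : Sq} {n m : ℕ} {g h : Equiv.Perm V} (hg : g ∈ Ball w n) (hh : h ∈ Ball w m) :
    g * h ∈ Ball w (n + m) := by
  obtain ⟨l, h1, h2, rfl⟩ := hg
  obtain ⟨l', h1', h2', rfl⟩ := hh
  refine ⟨l ++ l', by rw [List.length_append]; omega, ?_, by rw [List.prod_append]⟩
  intro x hx
  rcases List.mem_append.mp hx with h | h
  · exact h2 x h
  · exact h2' x h

theorem Ball.mono {w : Sq} {n m : ℕ} (h : n ≤ m) : Ball w n ⊆ Ball w m := by
  rintro g ⟨l, h1, h2, h3⟩
  exact ⟨l, h1.trans h, h2, h3⟩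

theorem Ball.one (w : Sq) (n : ℕ) : (1 : Equiv.Perm V) ∈ Ball w n :=
  ⟨[], by simp, by simp, rfl⟩

theorem Ball.gen {w : Sq} {g : Equiv.Perm V} (hg : g ∈ gens w) : g ∈ Ball w 1 :=
  ⟨[g], by simp, by simpa using hg, by simp⟩

theorem A_ball (w : Sq) : A ∈ Ball w 1 := Ball.gen (by simp [gens])

theorem B_ball (w : Sq) (k : K) : B w k ∈ Ball w 1 := by
  rcases K_cases k with h | h | h | h
  · rw [h, B_zero]; exact Ball.one w 1
  all_goals exact Ball.gen (by simp [gens, h])

theorem exists_phi (s : Fin 3) : ∃ b : K, phi s b ≠ 0 := by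
  have : ∀ s : Fin 3, ∃ b : K, phi s b ≠ 0 := by decide
  exact this s

/-- elements of the group of the shifted sequence lift to sections at the vertex `true` -/
theorem lift_ball {w : Sq} {n : ℕ} {h : Equiv.Perm V} (hh : h ∈ Ball (sh w) n) :
    ∃ g ∈ Ball w (3 * n), ∃ h', Dec g h' h := by
  obtain ⟨l, h1, h2, rfl⟩ := hh
  have hA : ∃ g ∈ Ball w 3, ∃ h', Dec g h' A := by
    obtain ⟨b, hb⟩ := exists_phi (w 0)
    refine ⟨A * B w b * A, ?_, B (sh w) b, rfl, ?_, ?_⟩
    · exact Ball.mul (Ball.mul (A_ball w) (B_ball w b)) (A_ball w)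
    · intro t; rfl
    · intro t
      rw [Equiv.Perm.mul_apply, Equiv.Perm.mul_apply, A_cons, Bool.not_true, B_false, A_cons]
      simp [AA, hb]
  have hB : ∀ k : K, ∃ g ∈ Ball w 3, ∃ h', Dec g h' (B (sh w) k) := by
    intro k
    exact ⟨B w k, Ball.mono (by norm_num) (B_ball w k), AA (phi (w 0) k), rfl,
      fun t => B_false w k t, fun t => rfl⟩
  have hgen : ∀ x ∈ gens (sh w), ∃ g ∈ Ball w 3, ∃ h', Dec g h' x := by
    intro x hx
    simp only [gens, Set.mem_insert_iff, Set.mem_singleton_iff] at hx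
    rcases hx with h | h | h | h
    · rw [h]; exact hA
    all_goals rw [h]; exact hB _
  have main : ∀ l : List (Equiv.Perm V), (∀ x ∈ l, x ∈ gens (sh w)) →
      ∃ g ∈ Ball w (3 * l.length), ∃ h', Dec g h' l.prod := by
    intro l
    induction l with
    | nil => intro _; exact ⟨1, Ball.one _ _, 1, Dec.one⟩
    | cons x l ih =>
      intro hx
      obtain ⟨g, hg, h', hd⟩ := ih (fun y hy => hx y (List.mem_cons_of_mem _ hy))
      obtain ⟨g2, hg2, h2', hd2⟩ := hgen x (hx x List.mem_cons_self)
      refine ⟨g2 * g, ?_, h2' * h', ?_⟩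
      · rw [List.length_cons, show 3 * (l.length + 1) = 3 + 3 * l.length by ring]
        exact Ball.mul hg2 hg
      · rw [List.prod_cons]; exact hd2.mul hd
  obtain ⟨g, hg, h', hd⟩ := main l h2
  exact ⟨g, Ball.mono (by omega) hg, h', hd⟩

theorem card_lift (w : Sq) (n : ℕ) : (Ball (sh w) n).ncard ≤ (Ball w (3 * n)).ncard := by
  classical
  have hch : ∀ h : Equiv.Perm V, ∃ g, h ∈ Ball (sh w) n →
      g ∈ Ball w (3 * n) ∧ ∃ h', Dec g h' h := by
    intro h
    by_cases hh : h ∈ Ball (sh w) n
    · obtain ⟨g, hg, h', hd⟩ := lift_ball hh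
      exact ⟨g, fun _ => ⟨hg, h', hd⟩⟩
    · exact ⟨1, fun h' => absurd h' hh⟩
  choose F hF using hch
  refine Set.ncard_le_ncard_of_injOn F (fun h hh => (hF h hh).1) ?_ (Ball_finite w _)
  intro h hh h2 hh2 he
  obtain ⟨a, ha⟩ := (hF h hh).2
  obtain ⟨b, hb⟩ := (hF h2 hh2).2
  rw [← he] at hb
  ext t : 1
  have e1 := ha.2.2 t
  rw [hb.2.2 t] at e1
  exact (List.cons.inj e1).2.symm

theorem card_lift_shn (m : ℕ) : ∀ (w : Sq) (n : ℕ),
    (Ball (shn m w) n).ncard ≤ (Ball w (3 ^ m * n)).ncard := by
  induction m with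
  | zero =>
    intro w n
    rw [pow_zero, one_mul]
    exact le_refl (Ball w n).ncard
  | succ m ih =>
    intro w n
    rw [← shn_sh]
    refine (ih (sh w) n).trans ((card_lift w _).trans (le_of_eq ?_))
    rw [pow_succ]; congr 2; ring

/-! ### independent involutions along a run -/

/-- the vertex `true ^ j` -/
def one (j : ℕ) : V := List.replicate j true

theorem one_succ (j : ℕ) (x : V) : one (j + 1) ++ x = true :: (one j ++ x) := by
  simp [one, List.replicate_succ]

theorem B_one (k : K) (x : V) (j : ℕ) : ∀ w : Sq,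
    B w k (one j ++ x) = one j ++ B (shn j w) k x := by
  induction j with
  | zero => intro w; rfl
  | succ j ih =>
    intro w
    rw [one_succ, B_true, ih (sh w), shn_sh, one_succ]

theorem B_fix (k : K) (j : ℕ) : ∀ (w : Sq), (∀ n < j, phi (w n) k = 0) → ∀ v : V,
    (∀ y, v ≠ one j ++ y) → B w k v = v := by
  induction j with
  | zero => intro w _ v hv; exact absurd rfl (hv v)
  | succ j ih =>
    intro w hw v hv
    match v with
    | [] => rfl
    | false :: t =>
      rw [B_false]
      simp [AA, hw 0 (by omega)]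
    | true :: t =>
      rw [B_true, ih (sh w) (fun n hn => hw (n + 1) (by omega)) t (fun y hy => ?_)]
      exact hv y (by rw [one_succ, hy])

theorem Dec.pow {g g0 g1 : Equiv.Perm V} (h : Dec g g0 g1) (n : ℕ) :
    Dec (g ^ n) (g0 ^ n) (g1 ^ n) := by
  induction n with
  | zero => simpa using Dec.one
  | succ n ih => rw [pow_succ, pow_succ, pow_succ]; exact ih.mul h

theorem Dec.zpow {g g0 g1 : Equiv.Perm V} (h : Dec g g0 g1) (n : ℤ) :
    Dec (g ^ n) (g0 ^ n) (g1 ^ n) := by
  obtain ⟨n, rfl | rfl⟩ := n.eq_nat_or_neg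
  · simp only [zpow_natCast]; exact h.pow n
  · simp only [zpow_neg, zpow_natCast]; exact (h.pow n).inv

/-- the rotation `A * B b` moves the vertex `true ^ j` along an orbit of size `2 ^ j` -/
theorem orbit_dvd (b : K) (x : V) (j : ℕ) : ∀ (w : Sq), (∀ n < j, phi (w n) b ≠ 0) →
    ∀ (n : ℤ) (y : V), ((A * B w b) ^ n) (one j ++ x) = one j ++ y → ((2 : ℤ) ^ j) ∣ n := by
  induction j with
  | zero => intro w _ n y _; simp
  | succ j ih =>
    intro w hw n y h
    have hb : phi (w 0) b ≠ 0 := hw 0 (by omega)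
    have t1 : ∀ t, (A * B w b) (true :: t) = false :: B (sh w) b t := fun t => rfl
    have t2 : ∀ t, (A * B w b) (false :: t) = true :: A t := by
      intro t
      rw [Equiv.Perm.mul_apply, B_false, A_cons]
      simp [AA, hb]
    have hd : Dec ((A * B w b) * (A * B w b)) (B (sh w) b * A) (A * B (sh w) b) := by
      refine ⟨rfl, fun t => ?_, fun t => ?_⟩
      · rw [Equiv.Perm.mul_apply, t2, t1]; rfl
      · rw [Equiv.Perm.mul_apply, t1, t2]; rfl
    have hz : ∀ (n' : ℤ) (t : V), ((A * B w b) ^ (2 * n')) (true :: t) =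
        true :: ((A * B (sh w) b) ^ n') t := by
      intro n' t
      rw [zpow_mul, show ((A * B w b) ^ (2 : ℤ)) = (A * B w b) * (A * B w b) from zpow_two _]
      exact (hd.zpow n').2.2 t
    rw [one_succ, one_succ] at h
    obtain ⟨n', hn | hn⟩ := n.even_or_odd'
    · rw [hn, hz] at h
      have := ih (sh w) (fun n hn => hw (n + 1) (by omega)) n' y (List.cons.inj h).2
      rw [hn, pow_succ, mul_comm]
      exact mul_dvd_mul_left 2 this
    · exfalso
      rw [hn, add_comm, zpow_add, zpow_one, Equiv.Perm.mul_apply, hz, t1] at h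
      exact absurd (List.cons.inj h).1 (by decide)

/-- partial products of the conjugates of `d` selected by `e` -/
def gprod (T d : Equiv.Perm V) (e : ℕ → Bool) : ℕ → Equiv.Perm V
  | 0 => 1
  | n + 1 => gprod T d e n * (T ^ n * (if e n then d else 1) * (T ^ n)⁻¹)

theorem gprod_mul_pow (T d : Equiv.Perm V) (e : ℕ → Bool) {w : Sq} {a b : ℕ}
    (hT : T ∈ Ball w a) (hd : d ∈ Ball w b) (n : ℕ) :
    gprod T d e n * T ^ n ∈ Ball w ((a + b) * n) := by
  induction n with
  | zero => simpa [gprod] using Ball.one w 0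
  | succ n ih =>
    have h1 : gprod T d e (n + 1) * T ^ (n + 1) =
        gprod T d e n * T ^ n * ((if e n then d else 1) * T) := by
      rw [gprod, pow_succ]
      simp only [mul_assoc]
      rw [inv_mul_cancel_left]
    rw [h1]
    have h2 : (if e n then d else 1) * T ∈ Ball w (b + a) := by
      refine Ball.mul ?_ hT
      split_ifs
      · exact hd
      · exact Ball.one w b
    refine Ball.mono (le_of_eq ?_) (Ball.mul ih h2)
    ring

theorem pow_ball {w : Sq} {a : ℕ} {T : Equiv.Perm V} (hT : T ∈ Ball w a) (n : ℕ) :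
    T ^ n ∈ Ball w (a * n) := by
  induction n with
  | zero => simpa using Ball.one w 0
  | succ n ih =>
    rw [pow_succ, Nat.mul_succ]
    exact Ball.mul ih hT

/-- exponentially many elements in a ball along a run -/
theorem card_run {w : Sq} {j : ℕ} {s : Fin 3} (hw : ∀ n < j, w n = s) (hj : w j ≠ s) :
    2 ^ (2 ^ j) ≤ (Ball w (5 * 2 ^ j)).ncard := by
  classical
  obtain ⟨b, hb⟩ := exists_phi s
  have hd0' : ∀ s : Fin 3, phi s (let3 s) = 0 := by decide
  have hd0 := hd0' s
  have hd1 : phi (w j) (let3 s) ≠ 0 := by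
    have : ∀ s s' : Fin 3, s' ≠ s → phi s' (let3 s) ≠ 0 := by decide
    exact this s (w j) hj
  set d : Equiv.Perm V := B w (let3 s) with hd
  set T : Equiv.Perm V := A * B w b with hT
  set P : ℕ → V → V := fun i x => (T ^ i) (one j ++ x) with hP
  have hfix : ∀ i i' : ℕ, i < 2 ^ j → i' < 2 ^ j → i ≠ i' → ∀ x : V,
      (T ^ i' * d * (T ^ i')⁻¹) (P i x) = P i x := by
    intro i i' hi hi' hne x
    have e1 : ((T ^ i')⁻¹) (P i x) = (T ^ ((i : ℤ) - i')) (one j ++ x) := by
      rw [hP, ← Equiv.Perm.mul_apply, zpow_sub, zpow_natCast, zpow_natCast]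
      congr 1
      exact ((Commute.refl T).pow_pow i' i).inv_left.eq
    have e2 : d ((T ^ ((i : ℤ) - i')) (one j ++ x)) = (T ^ ((i : ℤ) - i')) (one j ++ x) := by
      refine B_fix (let3 s) j w (fun n hn => by rw [hw n hn]; exact hd0) _ ?_
      intro y hy
      have := orbit_dvd b x j w (fun n hn => by rw [hw n hn]; exact hb) _ y hy
      have h2 : |((i : ℤ) - i')| < 2 ^ j := by
        rw [abs_lt]
        have h3 : (i : ℤ) < 2 ^ j := by exact_mod_cast hi
        have h4 : (i' : ℤ) < 2 ^ j := by exact_mod_cast hi'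
        constructor <;> omega
      have h5 := Int.eq_zero_of_abs_lt_dvd this h2
      omega
    rw [Equiv.Perm.mul_apply, Equiv.Perm.mul_apply, e1, e2, ← e1]
    rw [← Equiv.Perm.mul_apply, mul_inv_cancel]; rfl
  have hmove : ∀ i : ℕ, (T ^ i * d * (T ^ i)⁻¹) (P i [false, false]) = P i [false, true] := by
    intro i
    rw [hP, Equiv.Perm.mul_apply, Equiv.Perm.mul_apply]
    have e1 : ((T ^ i)⁻¹) ((T ^ i) (one j ++ [false, false])) = one j ++ [false, false] := by
      rw [← Equiv.Perm.mul_apply, inv_mul_cancel]; rfl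
    show (T ^ i) (d (((T ^ i)⁻¹) ((T ^ i) (one j ++ [false, false])))) = _
    rw [e1, hd, B_one]
    have e2 : B (shn j w) (let3 s) [false, false] = [false, true] := by
      rw [B_false]
      have : phi (shn j w 0) (let3 s) ≠ 0 := by simpa [shn] using hd1
      simp [AA, this]
    rw [e2]
  have hne : ∀ i, P i [false, false] ≠ P i [false, true] := by
    intro i h
    have h1 := (T ^ i).injective h
    have h2 := List.append_cancel_left h1
    exact absurd h2 (by decide)
  have low : ∀ (e : ℕ → Bool) (i : ℕ), i < 2 ^ j → ∀ n ≤ i, ∀ x,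
      gprod T d e n (P i x) = P i x := by
    intro e i hi n
    induction n with
    | zero => intro _ x; rfl
    | succ n ih =>
      intro hn x
      rw [gprod, Equiv.Perm.mul_apply]
      have : (T ^ n * (if e n then d else 1) * (T ^ n)⁻¹) (P i x) = P i x := by
        cases e n with
        | false => simp
        | true => simpa using hfix i n hi (by omega) (by omega) x
      rw [this]
      exact ih (by omega) x
  have high : ∀ (e : ℕ → Bool) (i n : ℕ), i < n → n ≤ 2 ^ j →
      gprod T d e n (P i [false, false]) =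
        if e i then P i [false, true] else P i [false, false] := by
    intro e i n hin
    induction n with
    | zero => omega
    | succ n ih =>
      intro hn
      rw [gprod, Equiv.Perm.mul_apply]
      by_cases hi : i = n
      · subst hi
        cases he : e i with
        | false =>
          simp only [Bool.false_eq_true, if_false, mul_one, mul_inv_cancel, Equiv.Perm.one_apply]
          exact low e i (by omega) i le_rfl _
        | true =>
          simp only [if_true]
          rw [hmove]
          exact low e i (by omega) i le_rfl _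
      · have : (T ^ n * (if e n then d else 1) * (T ^ n)⁻¹) (P i [false, false]) =
            P i [false, false] := by
          cases e n with
          | false => simp
          | true => simpa using hfix i n (by omega) (by omega) hi [false, false]
        rw [this]
        exact ih (by omega) (by omega)
  have hTb : T ∈ Ball w 2 := Ball.mul (A_ball w) (B_ball w b)
  have hTi : T⁻¹ ∈ Ball w 2 := by
    rw [hT, mul_inv_rev, A_inv, B_inv]
    exact Ball.mul (B_ball w b) (A_ball w)
  have hdb : d ∈ Ball w 1 := B_ball w _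
  have hmem : ∀ e : ℕ → Bool, gprod T d e (2 ^ j) ∈ Ball w (5 * 2 ^ j) := by
    intro e
    have h1 := gprod_mul_pow T d e hTb hdb (2 ^ j)
    have h2 := pow_ball hTi (2 ^ j)
    have h3 := Ball.mul h1 h2
    rw [inv_pow, mul_inv_cancel_right] at h3
    exact Ball.mono (by ring_nf; exact le_rfl) h3
  have : Finite (Ball w (5 * 2 ^ j)) := (Ball_finite w _).to_subtype
  have hinj := Nat.card_le_card_of_injective
    (fun e : Fin (2 ^ j) → Bool => (⟨gprod T d (fun n => if h : n < 2 ^ j then e ⟨n, h⟩ else false)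
      (2 ^ j), hmem _⟩ : Ball w (5 * 2 ^ j))) (by
      intro e e' h
      have h' := congrArg Subtype.val h
      simp only at h'
      funext i
      have h1 := high (fun n => if h : n < 2 ^ j then e ⟨n, h⟩ else false) i (2 ^ j) i.2 le_rfl
      have h2 := high (fun n => if h : n < 2 ^ j then e' ⟨n, h⟩ else false) i (2 ^ j) i.2 le_rfl
      rw [h', h2] at h1
      simp only [i.2, dif_pos, Fin.eta] at h1
      have := hne i
      cases hi : e i <;> cases hi' : e' i <;> simp_all)
  rw [← Nat.card_coe_set_eq]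
  refine le_trans (le_of_eq ?_) hinj
  rw [Nat.card_eq_fintype_card]; simp

end Pool.Agent.SlowLaws
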