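import Pool.Agent.SlowLaws.Vanish
import Pool.Agent.SlowLaws.Superpoly

/-!
# The derived words vanish on large balls
-/

set_option autoImplicit false

namespace Pool.Agent.SlowLaws

/-- commutator -/
def Cm {H : Type} [Group H] (x y : H) : H := x * y * x⁻¹ * y⁻¹

/-- the metabelian word map -/
def F2 {H : Type} [Group H] (x y z u : H) : H := Cm (Cm x y) (Cm z u)

theorem Dec_Cm {g g0 g1 h h0 h1 : Equiv.Perm V} (hg : Dec g g0 g1) (hh : Dec h h0 h1) :
    Dec (Cm g h) (Cm g0 h0) (Cm g1 h1) :=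
  ((hg.mul hh).mul hg.inv).mul hh.inv

theorem D_map4 (m : ℕ) {H H' : Set (Equiv.Perm V)}
    (hF : ∀ p ∈ H, ∀ q ∈ H, ∀ r ∈ H, ∀ s ∈ H, F2 p q r s ∈ H') :
    ∀ p ∈ D m H, ∀ q ∈ D m H, ∀ r ∈ D m H, ∀ s ∈ D m H, F2 p q r s ∈ D m H' := by
  induction m with
  | zero => exact hF
  | succ m ih =>
    rintro p ⟨p0, hp0, p1, hp1, hp⟩ q ⟨q0, hq0, q1, hq1, hq⟩ r ⟨r0, hr0, r1, hr1, hr⟩
      s ⟨s0, hs0, s1, hs1, hs⟩
    exact ⟨_, ih p0 hp0 q0 hq0 r0 hr0 s0 hs0, _, ih p1 hp1 q1 hq1 r1 hr1 s1 hs1,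
      Dec_Cm (Dec_Cm hp hq) (Dec_Cm hr hs)⟩

theorem Cm_mem {H : Type} [Group H] (S : Subgroup H) {p q : H} (hp : p ∈ S) (hq : q ∈ S) :
    Cm p q ∈ S :=
  mul_mem (mul_mem (mul_mem hp hq) (inv_mem hp)) (inv_mem hq)

theorem F2_mem {H : Type} [Group H] (S : Subgroup H) {p q r s : H} (hp : p ∈ S) (hq : q ∈ S)
    (hr : r ∈ S) (hs : s ∈ S) : F2 p q r s ∈ S :=
  Cm_mem S (Cm_mem S hp hq) (Cm_mem S hr hs)

/-- the infinite dihedral group is metabelian -/
theorem cs_F2 (s : Fin 3) {p q r u : Equiv.Perm V} (hp : p ∈ G (cs s)) (hq : q ∈ G (cs s))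
    (hr : r ∈ G (cs s)) (hu : u ∈ G (cs s)) : F2 p q r u = 1 := by
  obtain ⟨b, hb⟩ := exists_phi s
  set T : Equiv.Perm V := A * B (cs s) b with hT
  have hATA : A * T * A⁻¹ = T⁻¹ := by
    rw [A_inv, hT, mul_inv_rev, A_inv, B_inv, ← mul_assoc, A_mul_A, one_mul]
  have hAT : ∀ n : ℤ, A * T ^ n = T ^ (-n) * A := by
    intro n
    have h2 : (A * T * A⁻¹) ^ n = A * T ^ n * A⁻¹ := by rw [conj_zpow]
    rw [hATA, inv_zpow] at h2
    rw [zpow_neg, h2, inv_mul_cancel_right]
  have hc : ∀ g h : Equiv.Perm V, g ∈ G (cs s) → h ∈ G (cs s) → ∃ n : ℤ, Cm g h = T ^ n := by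
    intro g h hg hh
    obtain ⟨n, h1 | h1⟩ := cs_square s hg b hb <;> obtain ⟨m, h2 | h2⟩ := cs_square s hh b hb
    · refine ⟨0, ?_⟩
      rw [Cm, h1, h2, ← zpow_add, ← zpow_neg, ← zpow_neg, ← zpow_add, ← zpow_add]
      congr 1; ring
    · refine ⟨n + n, ?_⟩
      rw [Cm, h1, h2, mul_inv_rev, A_inv, ← zpow_neg, ← zpow_neg]
      calc T ^ n * (T ^ m * A) * T ^ (-n) * (A * T ^ (-m))
          = T ^ n * T ^ m * (A * T ^ (-n)) * (A * T ^ (-m)) := by simp only [mul_assoc]
        _ = T ^ n * T ^ m * T ^ n * (A * A) * T ^ (-m) := by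
            rw [hAT, neg_neg]; simp only [mul_assoc]
        _ = T ^ (n + n) := by
            rw [A_mul_A, mul_one, ← zpow_add, ← zpow_add, ← zpow_add]; congr 1; ring
    · refine ⟨-m - m, ?_⟩
      rw [Cm, h1, h2, mul_inv_rev, A_inv, ← zpow_neg, ← zpow_neg]
      calc T ^ n * A * T ^ m * (A * T ^ (-n)) * T ^ (-m)
          = T ^ n * (A * T ^ m) * (A * T ^ (-n)) * T ^ (-m) := by simp only [mul_assoc]
        _ = T ^ n * T ^ (-m) * (A * A) * T ^ (-n) * T ^ (-m) := by
            rw [hAT]; simp only [mul_assoc]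
        _ = T ^ (-m - m) := by
            rw [A_mul_A, mul_one, ← zpow_add, ← zpow_add, ← zpow_add]; congr 1; ring
    · refine ⟨n - m + n - m, ?_⟩
      rw [Cm, h1, h2, mul_inv_rev, mul_inv_rev, A_inv, ← zpow_neg, ← zpow_neg]
      calc T ^ n * A * (T ^ m * A) * (A * T ^ (-n)) * (A * T ^ (-m))
          = T ^ n * (A * T ^ m) * (A * A) * T ^ (-n) * (A * T ^ (-m)) := by simp only [mul_assoc]
        _ = T ^ n * T ^ (-m) * (A * T ^ (-n)) * (A * T ^ (-m)) := by
            rw [hAT, A_mul_A]; simp only [mul_assoc, one_mul]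
        _ = T ^ n * T ^ (-m) * T ^ n * (A * A) * T ^ (-m) := by
            rw [hAT (-n), neg_neg]; simp only [mul_assoc]
        _ = T ^ (n - m + n - m) := by
            rw [A_mul_A, mul_one, ← zpow_add, ← zpow_add, ← zpow_add]; congr 1
  obtain ⟨n, hn⟩ := hc p q hp hq
  obtain ⟨m, hm⟩ := hc r u hr hu
  rw [F2, hn, hm, Cm, ← zpow_neg, ← zpow_neg, ← zpow_add, ← zpow_add, ← zpow_add,
    show n + m + -n + -m = 0 by ring, zpow_zero]

/-- elements fixing the first `j` levels -/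
def Fix (j : ℕ) : Set (Equiv.Perm V) := {g | ∀ v : V, v.length ≤ j → g v = v}

theorem run_F2 {w : Sq} {j : ℕ} {s : Fin 3} (hw : ∀ n < j, w n = s) {p q r u : Equiv.Perm V}
    (hp : p ∈ G w) (hq : q ∈ G w) (hr : r ∈ G w) (hu : u ∈ G w) :
    F2 p q r u ∈ (G w : Set (Equiv.Perm V)) ∩ Fix j := by
  refine ⟨F2_mem _ hp hq hr hu, ?_⟩
  obtain ⟨k, l, rfl⟩ := exists_ev hp
  obtain ⟨k', l', rfl⟩ := exists_ev hq
  obtain ⟨k'', l'', rfl⟩ := exists_ev hr
  obtain ⟨k3, l3, rfl⟩ := exists_ev hu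
  have hw' : ∀ n < j, w n = cs s n := hw
  have h := F2_mem (Agr j) (Agr_ev hw' l k) (Agr_ev hw' l' k') (Agr_ev hw' l'' k'')
    (Agr_ev hw' l3 k3)
  intro v hv
  have h3 := h.2.2 v hv
  have e : (F2 ((ev w k l, ev (cs s) k l) : Equiv.Perm V × Equiv.Perm V)
      (ev w k' l', ev (cs s) k' l') (ev w k'' l'', ev (cs s) k'' l'')
      (ev w k3 l3, ev (cs s) k3 l3)).2 = 1 :=
    cs_F2 s (ev_mem _ k l) (ev_mem _ k' l') (ev_mem _ k'' l'') (ev_mem _ k3 l3)
  rw [e] at h3
  exact h3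

/-- normal form in the infinite dihedral group with a bound on the exponent -/
theorem cs_form (s : Fin 3) (b : K) (hb : phi s b ≠ 0) (l : List K) : ∀ k : K, ∃ n : ℤ,
    (ev (cs s) k l = (A * B (cs s) b) ^ n ∧ |n| ≤ l.length) ∨
    (ev (cs s) k l = (A * B (cs s) b) ^ n * A ∧ -(l.length : ℤ) - 1 ≤ n ∧ n ≤ l.length) := by
  set T : Equiv.Perm V := A * B (cs s) b with hT
  have hATA : A * T * A⁻¹ = T⁻¹ := by
    rw [A_inv, hT, mul_inv_rev, A_inv, B_inv, ← mul_assoc, A_mul_A, one_mul]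
  have hAT : ∀ n : ℤ, A * T ^ n = T ^ (-n) * A := by
    intro n
    have h2 : (A * T * A⁻¹) ^ n = A * T ^ n * A⁻¹ := by rw [conj_zpow]
    rw [hATA, inv_zpow] at h2
    rw [zpow_neg, h2, inv_mul_cancel_right]
  have hB : ∀ x : K, B (cs s) x = 1 ∨ B (cs s) x = T ^ (-1 : ℤ) * A := by
    intro x
    by_cases hx : phi s x = 0
    · left; ext v : 1; exact cs_B_triv s x hx v
    · right
      have : phi s x = phi s b := by
        have h2 : ∀ y z : ZMod 2, y ≠ 0 → z ≠ 0 → y = z := by decide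
        exact h2 _ _ hx hb
      rw [cs_B_eq s x b this, ← hAT 1, zpow_one, hT, ← mul_assoc, A_mul_A, one_mul]
  induction l with
  | nil =>
    intro k
    rcases hB k with h | h
    · exact ⟨0, Or.inl ⟨by rw [ev_nil, h, zpow_zero], by simp⟩⟩
    · exact ⟨-1, Or.inr ⟨by rw [ev_nil, h], by simp⟩⟩
  | cons x l ih =>
    intro k
    obtain ⟨n, ⟨h1, h2⟩ | ⟨h1, h2⟩⟩ := ih x <;> rcases hB k with h | h
    · refine ⟨-n, Or.inr ⟨?_, ?_⟩⟩
      · rw [ev_cons, h, one_mul, h1, hAT]
      · rw [abs_le] at h2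
        rw [List.length_cons]; push_cast; omega
    · refine ⟨-1 + n, Or.inl ⟨?_, ?_⟩⟩
      · rw [ev_cons, h, h1, zpow_add]
        rw [mul_assoc, ← mul_assoc A A, A_mul_A, one_mul]
      · rw [abs_le] at h2 ⊢
        rw [List.length_cons]; push_cast; omega
    · refine ⟨-n, Or.inl ⟨?_, ?_⟩⟩
      · rw [ev_cons, h, one_mul, h1, ← mul_assoc, hAT, mul_assoc, A_mul_A, mul_one]
      · rw [abs_le]
        rw [List.length_cons]; push_cast; omega
    · refine ⟨-1 + n, Or.inr ⟨?_, ?_⟩⟩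
      · rw [ev_cons, h, h1, zpow_add]
        rw [mul_assoc, ← mul_assoc A A, A_mul_A, one_mul, mul_assoc]
      · rw [List.length_cons]; push_cast; omega

theorem length_le_W (l : List K) : ∀ k : K, l.length ≤ W 1 nz k l := by
  induction l with
  | nil => intro k; simp
  | cons x l ih =>
    intro k
    have := ih x
    rw [W_cons, List.length_cons]; omega

/-- a short element of a dihedral group which fixes `j ≥ 2` levels is trivial -/
theorem cs_triv (s : Fin 3) {j : ℕ} (hj : 2 ≤ j) {k : K} {l : List K} (hW : W 1 nz k l < 2 ^ j)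
    (hf : ev (cs s) k l ∈ Fix j) : ev (cs s) k l = 1 := by
  obtain ⟨b, hb⟩ := exists_phi s
  obtain ⟨n, ⟨h1, h2⟩ | ⟨h1, h2⟩⟩ := cs_form s b hb l k
  · have h3 : ((A * B (cs s) b) ^ n) (one j ++ []) = one j ++ [] := by
      rw [← h1]
      exact hf _ (by simp [one])
    have h4 := orbit_dvd b [] j (cs s) (fun n _ => hb) n [] h3
    have h5 := length_le_W l k
    have h6 : |n| < 2 ^ j := by
      have : (l.length : ℤ) < 2 ^ j := by exact_mod_cast lt_of_le_of_lt h5 hW
      exact lt_of_le_of_lt h2 this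
    rw [h1, Int.eq_zero_of_abs_lt_dvd h4 h6, zpow_zero]
  · exfalso
    set T : Equiv.Perm V := A * B (cs s) b with hT
    have hT1 : T [true, true] = [false, true] := by
      rw [hT, Equiv.Perm.mul_apply, B_true, A_cons]
      have : B (sh (cs s)) b [true] = [true] := rfl
      rw [this]; rfl
    have e1 : (T ^ n * A) [true, true] = [true, true] := by
      rw [← h1]; exact hf _ (by simpa using hj)
    have e2 : (T ^ n * A) [false, true] = [false, true] := by
      rw [← h1]; exact hf _ (by simpa using hj)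
    have e3 : (T ^ (n + 1)) (one 2 ++ []) = one 2 ++ [] := by
      rw [zpow_add, zpow_one, Equiv.Perm.mul_apply]
      show (T ^ n) (T [true, true]) = [true, true]
      rw [hT1]; exact e1
    have e4 : (T ^ (n - 1)) (one 2 ++ []) = one 2 ++ [] := by
      show (T ^ (n - 1)) [true, true] = [true, true]
      have e5 : (T ^ n) [true, true] = [false, true] := e2
      have e6 : (T * T ^ (n - 1)) [true, true] = T [true, true] := by
        rw [hT1, ← e5]
        congr 1
        rw [← zpow_one_add]; congr 1; ring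
      exact T.injective e6
    have d1 := orbit_dvd b [] 2 (cs s) (fun n _ => hb) _ [] e3
    have d2 := orbit_dvd b [] 2 (cs s) (fun n _ => hb) _ [] e4
    omega

/-- short elements of the kernel of the dihedral quotient have simple sections -/
theorem simple_sections (s : Fin 3) (j : ℕ) : ∀ (w : Sq), (∀ n < j, w n = s) →
    ∀ (k : K) (l : List K), W 1 nz k l ≤ 2 ^ j → ev (cs s) k l = 1 →
      ev w k l ∈ D j {g | ∃ x, g = B (shn j w) x} := by
  induction j with
  | zero =>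
    intro w _ k l hW h1
    match l with
    | [] => exact ⟨k, ev_nil w k⟩
    | x :: l =>
      exfalso
      rw [W_cons] at hW
      have hk : nz k = 0 := by rw [pow_zero] at hW; omega
      have hW0 : W 1 nz x l = 0 := by rw [pow_zero] at hW; omega
      match l with
      | [] =>
        have hx : nz x = 0 := by simpa [W] using hW0
        have hnz : ∀ y : K, nz y = 0 → y = 0 := by decide
        rw [hnz k hk, hnz x hx, ← A_mul_ev, ev_nil, B_zero, mul_one] at h1
        have := congrArg (fun g : Equiv.Perm V => g [true]) h1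
        exact absurd this (by decide)
      | y :: l => rw [W_cons] at hW0; omega
  | succ j ih =>
    intro w hw k l hW h1
    have hp : par l = false := by
      refine par_of_fix (w := cs s) (k := k) (t := []) (t' := []) ?_
      rw [h1]; rfl
    obtain ⟨k0, l0, k1, l1, e0, e1, _, hN0, hN1⟩ := sectionsU s l k
    have hd1 : Dec (ev w k l) (ev (sh w) k0 l0) (ev (sh w) k1 l1) := by
      have a0 := e0 w (hw 0 (by omega))
      have a1 := e1 w (hw 0 (by omega))
      rw [hp] at a0 a1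
      exact ⟨ev_ext_nil w k l, a0, a1⟩
    have hd2 : Dec (ev (cs s) k l) (ev (cs s) k0 l0) (ev (cs s) k1 l1) := by
      have a0 := e0 (cs s) rfl
      have a1 := e1 (cs s) rfl
      rw [hp] at a0 a1
      exact ⟨ev_ext_nil (cs s) k l, a0, a1⟩
    rw [h1] at hd2
    obtain ⟨c0, c1⟩ := Dec.one.eq_eq hd2
    have h2N := two_N_le k l
    rw [pow_succ] at hW
    have i0 := ih (sh w) (fun n hn => hw (n + 1) (by omega)) k0 l0 (by omega) c0.symm
    have i1 := ih (sh w) (fun n hn => hw (n + 1) (by omega)) k1 l1 (by omega) c1.symm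
    rw [shn_sh] at i0 i1
    exact ⟨_, i0, _, i1, hd1⟩

/-- short elements fixing the levels of a run have sections in the Klein four group -/
theorem run_short {w : Sq} {j : ℕ} {s : Fin 3} (hw : ∀ n < j, w n = s) (hj : 2 ≤ j)
    {p : Equiv.Perm V} {n : ℕ} (hs : Short w n p) (hn : n < 2 ^ j) (hf : p ∈ Fix j) :
    p ∈ D j {g | ∃ x, g = B (shn j w) x} := by
  obtain ⟨k, l, rfl, hW⟩ := hs
  have hagr := Agr_ev (j := j) (w := w) (w' := cs s) hw l k
  have hf' : ev (cs s) k l ∈ Fix j := fun v hv => by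
    have := hagr.2.2 v hv
    exact this.symm.trans (hf v hv)
  exact simple_sections s j w hw k l (by omega) (cs_triv s hj (by omega) hf')

/-- sections of short elements are short -/
theorem short_D (a b : ℕ) (H : Set (Equiv.Perm V)) : ∀ (w : Sq) (n : ℕ) (g : Equiv.Perm V),
    n ≤ 2 ^ (a + b) → Short w n g → g ∈ D a H →
      g ∈ D a (H ∩ {p | Short (shn a w) (2 ^ b) p}) := by
  induction a with
  | zero =>
    intro w n g hn hs hg
    rw [Nat.zero_add] at hn
    exact ⟨hg, hs.mono hn⟩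
  | succ a ih =>
    intro w n g hn hs hg
    obtain ⟨g0, hg0, g1, hg1, hd⟩ := hg
    obtain ⟨k, l, rfl, h⟩ := hs
    have hp : par l = false := par_of_fix (hd.2.1 [])
    obtain ⟨k0, l0, k1, l1, hd', _, hN0, hN1⟩ := dec_of_par (w := w) (k := k) hp
    obtain ⟨e0, e1⟩ := hd.eq_eq hd'
    have h2N := two_N_le k l
    rw [show a + 1 + b = a + b + 1 by ring, pow_succ] at hn
    have i0 := ih (sh w) (2 ^ (a + b)) g0 le_rfl ⟨k0, l0, e0.symm, by omega⟩ hg0
    have i1 := ih (sh w) (2 ^ (a + b)) g1 le_rfl ⟨k1, l1, e1.symm, by omega⟩ hg1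
    rw [shn_sh] at i0 i1
    exact ⟨_, i0, _, i1, hd⟩

theorem D_comm (m : ℕ) {E : Set (Equiv.Perm V)} (hE : ∀ p ∈ E, ∀ q ∈ E, p * q = q * p) :
    ∀ p ∈ D m E, ∀ q ∈ D m E, p * q = q * p := by
  induction m with
  | zero => exact hE
  | succ m ih =>
    rintro p ⟨p0, hp0, p1, hp1, hp⟩ q ⟨q0, hq0, q1, hq1, hq⟩
    have h1 := hp.mul hq
    rw [ih p0 hp0 q0 hq0, ih p1 hp1 q1 hq1] at h1
    exact h1.unique (hq.mul hp)

/-- derived words: `δ₀ = x₀`, `δ_{n+1} = [δ_n(even variables), δ_n(odd variables)]` -/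
def dw : ℕ → FreeGroup ℕ
  | 0 => FreeGroup.of 0
  | i + 1 => Cm (FreeGroup.map (fun n => 2 * n) (dw i)) (FreeGroup.map (fun n => 2 * n + 1) (dw i))

theorem lift_dw_succ {H : Type} [Group H] (f : ℕ → H) (i : ℕ) :
    FreeGroup.lift f (dw (i + 1)) =
      Cm (FreeGroup.lift (fun n => f (2 * n)) (dw i))
        (FreeGroup.lift (fun n => f (2 * n + 1)) (dw i)) := by
  have h : ∀ (g : ℕ → ℕ) (x : FreeGroup ℕ),
      FreeGroup.lift f (FreeGroup.map g x) = FreeGroup.lift (fun n => f (g n)) x := by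
    intro g x
    have hc : (FreeGroup.lift f).comp (FreeGroup.map g) = FreeGroup.lift (fun n => f (g n)) := by
      ext n; simp
    exact DFunLike.congr_fun hc x
  show FreeGroup.lift f (Cm _ _) = _
  simp only [Cm, map_mul, map_inv, h]

theorem lift_dw_two {H : Type} [Group H] (f : ℕ → H) (i : ℕ) :
    FreeGroup.lift f (dw (i + 2)) =
      F2 (FreeGroup.lift (fun n => f (2 * (2 * n))) (dw i))
        (FreeGroup.lift (fun n => f (2 * (2 * n + 1))) (dw i))
        (FreeGroup.lift (fun n => f (2 * (2 * n) + 1)) (dw i))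
        (FreeGroup.lift (fun n => f (2 * (2 * n + 1) + 1)) (dw i)) := by
  rw [lift_dw_succ, lift_dw_succ, lift_dw_succ]; rfl

theorem dw_mem_D' {w : Sq} {m : ℕ → ℕ} (hm : Runs w m) (i : ℕ)
    (ih : ∀ f : ℕ → Equiv.Perm V, (∀ n, f n ∈ G w) →
      FreeGroup.lift f (dw (2 * i)) ∈ D (m i) (G (shn (m i) w) : Set (Equiv.Perm V)))
    (f : ℕ → Equiv.Perm V) (hf : ∀ n, f n ∈ G w) :
    FreeGroup.lift f (dw (2 * i + 2)) ∈
      D (m i) ((G (shn (m i) w) : Set (Equiv.Perm V)) ∩ Fix (m (i + 1) - m i)) := by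
  rw [lift_dw_two]
  have key : ∀ p ∈ (G (shn (m i) w) : Set (Equiv.Perm V)),
      ∀ q ∈ (G (shn (m i) w) : Set (Equiv.Perm V)),
      ∀ r ∈ (G (shn (m i) w) : Set (Equiv.Perm V)),
      ∀ u ∈ (G (shn (m i) w) : Set (Equiv.Perm V)),
      F2 p q r u ∈ (G (shn (m i) w) : Set (Equiv.Perm V)) ∩ Fix (m (i + 1) - m i) := by
    intro p hp q hq r hr u hu
    exact run_F2 (w := shn (m i) w) (s := w (m i))
      (fun n hn => hm.2.2 i (n + m i) (by omega) (by omega)) hp hq hr hu
  exact D_map4 (m i) key _ (ih _ fun n => hf _) _ (ih _ fun n => hf _) _ (ih _ fun n => hf _)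
    _ (ih _ fun n => hf _)

theorem dw_mem_D {w : Sq} {m : ℕ → ℕ} (hm : Runs w m) (i : ℕ) :
    ∀ f : ℕ → Equiv.Perm V, (∀ n, f n ∈ G w) →
      FreeGroup.lift f (dw (2 * i)) ∈ D (m i) (G (shn (m i) w) : Set (Equiv.Perm V)) := by
  induction i with
  | zero =>
    intro f hf
    rw [hm.1]
    show FreeGroup.lift f (FreeGroup.of 0) ∈ (G w : Set (Equiv.Perm V))
    rw [FreeGroup.lift_apply_of]
    exact hf 0
  | succ i ih =>
    intro f hf
    have h1 := dw_mem_D' hm i ih f hf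
    have hle := hm.2.1 i
    have h2 : (G (shn (m i) w) : Set (Equiv.Perm V)) ∩ Fix (m (i + 1) - m i) ⊆
        D (m (i + 1) - m i) (G (shn (m (i + 1)) w) : Set (Equiv.Perm V)) := by
      rintro p ⟨hp, hp'⟩
      have := mem_D_of_fix (m (i + 1) - m i) (shn (m i) w) p hp hp'
      rw [shn_shn, Nat.sub_add_cancel hle] at this
      exact this
    have h3 := D_mono (m i) h2 h1
    rw [D_add, Nat.sub_add_cancel hle] at h3
    exact h3

theorem Short.Cm {w : Sq} {n : ℕ} {g h : Equiv.Perm V} (hg : Short w n g) (hh : Short w n h) :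
    Short w (4 * n) (Cm g h) :=
  (((hg.mul hh).mul hg.inv).mul hh.inv).mono (by omega)

theorem short_dw {w : Sq} {R : ℕ} (i : ℕ) : ∀ f : ℕ → Equiv.Perm V, (∀ n, Short w R (f n)) →
    Short w (4 ^ i * R) (FreeGroup.lift f (dw i)) := by
  induction i with
  | zero =>
    intro f hf
    show Short w _ (FreeGroup.lift f (FreeGroup.of 0))
    rw [FreeGroup.lift_apply_of]
    exact (hf 0).mono (by simp)
  | succ i ih =>
    intro f hf
    rw [lift_dw_succ]
    refine (Short.Cm (ih (fun n => f (2 * n)) (fun n => hf _))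
      (ih (fun n => f (2 * n + 1)) (fun n => hf _))).mono (le_of_eq ?_)
    rw [pow_succ]; ring

/-- the derived word `dw (2 i + 3)` vanishes on all elements of length at most `R`, if the first
`i + 1` runs are long enough -/
theorem dw_vanish {w : Sq} {m : ℕ → ℕ} (hm : Runs w m) {R i : ℕ}
    (h2 : 2 ≤ m (i + 1) - m i)
    (hR : 4 ^ (2 * i + 2) * R ≤ 2 ^ (m (i + 1) - 1)) (f : ℕ → Equiv.Perm V)
    (hf : ∀ n, Short w R (f n)) :
    FreeGroup.lift f (dw (2 * i + 3)) = 1 := by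
  have key : ∀ f : ℕ → Equiv.Perm V, (∀ n, Short w R (f n)) →
      FreeGroup.lift f (dw (2 * i + 2)) ∈
        D (m (i + 1)) {g | ∃ x, g = B (shn (m (i + 1)) w) x} := by
    intro f hf
    have h3 := dw_mem_D' hm i (dw_mem_D hm i) f (fun n => (hf n).mem)
    have hle := hm.2.1 i
    have h4 := short_D (m i) (m (i + 1) - m i - 1) _ w _ _ (hR.trans (le_of_eq (by
      congr 1; omega))) (short_dw (2 * i + 2) f hf) h3
    have h5 : ((G (shn (m i) w) : Set (Equiv.Perm V)) ∩ Fix (m (i + 1) - m i)) ∩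
        {p | Short (shn (m i) w) (2 ^ (m (i + 1) - m i - 1)) p} ⊆
        D (m (i + 1) - m i) {g | ∃ x, g = B (shn (m (i + 1)) w) x} := by
      rintro p ⟨⟨_, hp2⟩, hp3⟩
      have := run_short (w := shn (m i) w) (s := w (m i)) (j := m (i + 1) - m i)
        (fun n hn => hm.2.2 i (n + m i) (by omega) (by omega)) h2 hp3
        (Nat.pow_lt_pow_right (by norm_num) (by omega)) hp2
      rw [shn_shn, Nat.sub_add_cancel hle] at this
      exact this
    have h6 := D_mono (m i) h5 h4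
    rw [D_add, Nat.sub_add_cancel hle] at h6
    exact h6
  rw [show 2 * i + 3 = (2 * i + 2) + 1 by ring, lift_dw_succ]
  have hc := D_comm (m (i + 1)) (E := {g | ∃ x, g = B (shn (m (i + 1)) w) x}) (by
    rintro _ ⟨x, rfl⟩ _ ⟨y, rfl⟩
    rw [← B_add, ← B_add, add_comm x y]) _ (key (fun n => f (2 * n)) fun n => hf _) _
    (key (fun n => f (2 * n + 1)) fun n => hf _)
  rw [Cm, hc]
  group

/-! ### the derived words are nontrivial -/

theorem dw_ne_one (i : ℕ) : dw i ≠ 1 := by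
  induction i with
  | zero => exact FreeGroup.of_ne_one 0
  | succ i ih =>
    intro h
    set x := FreeGroup.map (fun n => 2 * n) (dw i) with hx
    set y := FreeGroup.map (fun n => 2 * n + 1) (dw i) with hy
    have hx1 : x ≠ 1 := by
      intro e
      apply ih
      apply FreeGroup.map_injective (f := fun n : ℕ => 2 * n)
        (fun a b hab => by simpa using hab)
      rw [map_one]; exact e
    have hy1 : y ≠ 1 := by
      intro e
      apply ih
      apply FreeGroup.map_injective (f := fun n : ℕ => 2 * n + 1)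
        (fun a b hab => by simpa using hab)
      rw [map_one]; exact e
    refine not_commute hx1 hy1 (fun p hp => toWord_map_mem hp) (fun p hp => toWord_map_mem hp) ?_
    have h' : x * y * x⁻¹ * y⁻¹ = 1 := h
    rw [mul_inv_eq_one, mul_inv_eq_iff_eq_mul] at h'
    exact h'

theorem norm_dw_le (i : ℕ) : (dw i).norm ≤ 4 ^ i := by
  induction i with
  | zero => exact le_of_eq (FreeGroup.norm_of 0)
  | succ i ih =>
    have hx := (norm_map_le (fun n => 2 * n) (dw i)).trans ih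
    have hy := (norm_map_le (fun n => 2 * n + 1) (dw i)).trans ih
    have h1 := FreeGroup.norm_mul_le (FreeGroup.map (fun n => 2 * n) (dw i))
      (FreeGroup.map (fun n => 2 * n + 1) (dw i))
    have h2 := FreeGroup.norm_mul_le (FreeGroup.map (fun n => 2 * n) (dw i) *
      FreeGroup.map (fun n => 2 * n + 1) (dw i)) (FreeGroup.map (fun n => 2 * n) (dw i))⁻¹
    have h3 := FreeGroup.norm_mul_le (FreeGroup.map (fun n => 2 * n) (dw i) *
      FreeGroup.map (fun n => 2 * n + 1) (dw i) * (FreeGroup.map (fun n => 2 * n) (dw i))⁻¹)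
      (FreeGroup.map (fun n => 2 * n + 1) (dw i))⁻¹
    rw [FreeGroup.norm_inv_eq] at h2 h3
    show (FreeGroup.map (fun n => 2 * n) (dw i) *
      FreeGroup.map (fun n => 2 * n + 1) (dw i) * (FreeGroup.map (fun n => 2 * n) (dw i))⁻¹ *
      (FreeGroup.map (fun n => 2 * n + 1) (dw i))⁻¹).norm ≤ _
    rw [pow_succ]
    omega

end Pool.Agent.SlowLaws
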