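import Pool.Agent.SlowLaws.Sections

/-!
# The words `V i` act trivially on many levels
-/

set_option autoImplicit false

namespace Pool.Agent.SlowLaws

/-- the word map `(x, y) ↦ [x², y²]` -/
def Fw {H : Type} [Group H] (x y : H) : H := x * x * (y * y) * (x * x)⁻¹ * (y * y)⁻¹

/-- elements fixing level `m` pointwise, with all sections at level `m` in `H` -/
def D : ℕ → Set (Equiv.Perm V) → Set (Equiv.Perm V)
  | 0, H => H
  | m + 1, H => {g | ∃ g0 ∈ D m H, ∃ g1 ∈ D m H, Dec g g0 g1}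

theorem D_mono (m : ℕ) {H H' : Set (Equiv.Perm V)} (h : H ⊆ H') : D m H ⊆ D m H' := by
  induction m with
  | zero => exact h
  | succ m ih =>
    rintro g ⟨g0, h0, g1, h1, hd⟩
    exact ⟨g0, ih h0, g1, ih h1, hd⟩

theorem D_add (m m' : ℕ) (H : Set (Equiv.Perm V)) : D m (D m' H) = D (m' + m) H := by
  induction m with
  | zero => rfl
  | succ m ih =>
    show {g | ∃ g0 ∈ D m (D m' H), ∃ g1 ∈ D m (D m' H), Dec g g0 g1} =
      {g | ∃ g0 ∈ D (m' + m) H, ∃ g1 ∈ D (m' + m) H, Dec g g0 g1}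
    rw [ih]

theorem Dec_Fw {g g0 g1 h h0 h1 : Equiv.Perm V} (hg : Dec g g0 g1) (hh : Dec h h0 h1) :
    Dec (Fw g h) (Fw g0 h0) (Fw g1 h1) :=
  (((hg.mul hg).mul (hh.mul hh)).mul (hg.mul hg).inv).mul (hh.mul hh).inv

theorem D_map (m : ℕ) {H H' : Set (Equiv.Perm V)} (hF : ∀ p ∈ H, ∀ q ∈ H, Fw p q ∈ H') :
    ∀ p ∈ D m H, ∀ q ∈ D m H, Fw p q ∈ D m H' := by
  induction m with
  | zero => exact hF
  | succ m ih =>
    rintro p ⟨p0, hp0, p1, hp1, hp⟩ q ⟨q0, hq0, q1, hq1, hq⟩
    exact ⟨_, ih p0 hp0 q0 hq0, _, ih p1 hp1 q1 hq1, Dec_Fw hp hq⟩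

/-- the sequence shifted `j` times -/
def shn (j : ℕ) (w : Sq) : Sq := fun n => w (n + j)

theorem shn_sh (j : ℕ) (w : Sq) : shn j (sh w) = shn (j + 1) w := by
  funext n; simp only [shn, sh]; congr 1

theorem shn_shn (i j : ℕ) (w : Sq) : shn i (shn j w) = shn (i + j) w := by
  funext n; simp only [shn]; congr 1; omega

/-- an element of `G w` fixing level `j` lies in `D j` of the group of the shifted sequence -/
theorem mem_D_of_fix (j : ℕ) : ∀ (w : Sq) (g : Equiv.Perm V), g ∈ G w →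
    (∀ v : V, v.length ≤ j → g v = v) → g ∈ D j (G (shn j w) : Set (Equiv.Perm V)) := by
  induction j with
  | zero => intro w g hg _; exact hg
  | succ j ih =>
    intro w g hg hfix
    obtain ⟨k, l, rfl⟩ := exists_ev hg
    have hp : par l = false :=
      par_of_fix (t := []) (t' := []) (hfix [false] (by simp))
    obtain ⟨k0, l0, k1, l1, hd, _⟩ := dec_of_par (w := w) (k := k) hp
    have e : shn (j + 1) w = shn j (sh w) := (shn_sh j w).symm
    rw [e]
    refine ⟨_, ih (sh w) _ (ev_mem _ k0 l0) ?_, _, ih (sh w) _ (ev_mem _ k1 l1) ?_, hd⟩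
    · intro v hv
      have h := hfix (false :: v) (by simp [hv])
      rw [hd.2.1] at h
      exact (List.cons.inj h).2
    · intro v hv
      have h := hfix (true :: v) (by simp [hv])
      rw [hd.2.2] at h
      exact (List.cons.inj h).2

/-- pairs of length preserving permutations which agree up to level `j` -/
def Agr (j : ℕ) : Subgroup (Equiv.Perm V × Equiv.Perm V) where
  carrier := {p | (∀ v, (p.1 v).length = v.length) ∧ (∀ v, (p.2 v).length = v.length) ∧
    ∀ v : V, v.length ≤ j → p.1 v = p.2 v}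
  mul_mem' := by
    rintro ⟨a, b⟩ ⟨c, d⟩ ⟨h1, h2, h3⟩ ⟨h4, h5, h6⟩
    refine ⟨fun v => ?_, fun v => ?_, fun v hv => ?_⟩
    · show (a (c v)).length = _
      rw [h1, h4]
    · show (b (d v)).length = _
      rw [h2, h5]
    · show a (c v) = b (d v)
      have e : c v = d v := h6 v hv
      rw [← e]
      exact h3 (c v) (by rw [h4]; exact hv)
  one_mem' := ⟨fun _ => rfl, fun _ => rfl, fun _ _ => rfl⟩
  inv_mem' := by
    rintro ⟨a, b⟩ ⟨h1, h2, h3⟩
    have ea : ∀ v, a (a⁻¹ v) = v := fun v => by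
      rw [← Equiv.Perm.mul_apply, mul_inv_cancel]; rfl
    have eb : ∀ v, b (b⁻¹ v) = v := fun v => by
      rw [← Equiv.Perm.mul_apply, mul_inv_cancel]; rfl
    have e1 : ∀ v, (a⁻¹ v).length = v.length := fun v => by
      have := h1 (a⁻¹ v)
      rw [show ((a, b) : Equiv.Perm V × Equiv.Perm V).1 (a⁻¹ v) = v from ea v] at this
      exact this.symm
    have e2 : ∀ v, (b⁻¹ v).length = v.length := fun v => by
      have := h2 (b⁻¹ v)
      rw [show ((a, b) : Equiv.Perm V × Equiv.Perm V).2 (b⁻¹ v) = v from eb v] at this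
      exact this.symm
    refine ⟨e1, e2, fun v hv => ?_⟩
    show a⁻¹ v = b⁻¹ v
    rw [Equiv.Perm.inv_eq_iff_eq]
    have := h3 (b⁻¹ v) (by rw [e2]; exact hv)
    rw [show ((a, b) : Equiv.Perm V × Equiv.Perm V).2 (b⁻¹ v) = v from eb v] at this
    exact this.symm

theorem Agr_A (j : ℕ) : ((A, A) : Equiv.Perm V × Equiv.Perm V) ∈ Agr j := by
  have e : ∀ v : V, (A v).length = v.length := fun v => by
    cases v with
    | nil => rfl
    | cons h t => rfl
  exact ⟨e, e, fun _ _ => rfl⟩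

theorem B_length (k : K) (v : V) : ∀ w : Sq, (B w k v).length = v.length := by
  induction v with
  | nil => intro w; rfl
  | cons h t ih =>
    intro w
    cases h with
    | false =>
      rw [B_false]
      have e : ∀ v : V, (A v).length = v.length := fun v => by
        cases v with
        | nil => rfl
        | cons h t => rfl
      by_cases he : phi (w 0) k = 0
      · simp [AA, he]
      · simp [AA, he, e]
    | true => rw [B_true, List.length_cons, ih, List.length_cons]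

theorem B_agree (k : K) (v : V) : ∀ (j : ℕ) (w w' : Sq), (∀ n < j, w n = w' n) →
    v.length ≤ j → B w k v = B w' k v := by
  induction v with
  | nil => intro j w w' _ _; rfl
  | cons h t ih =>
    intro j w w' hw hv
    have hj : 0 < j := by simp at hv; omega
    cases h with
    | false => rw [B_false, B_false, hw 0 hj]
    | true =>
      rw [B_true, B_true]
      rw [ih (j - 1) (sh w) (sh w') (fun n hn => hw (n + 1) (by omega))
        (by simp at hv; omega)]

theorem Agr_B {j : ℕ} {w w' : Sq} (hw : ∀ n < j, w n = w' n) (k : K) :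
    ((B w k, B w' k) : Equiv.Perm V × Equiv.Perm V) ∈ Agr j :=
  ⟨fun v => B_length k v w, fun v => B_length k v w', fun v hv => B_agree k v j w w' hw hv⟩

theorem Agr_ev {j : ℕ} {w w' : Sq} (hw : ∀ n < j, w n = w' n) (l : List K) : ∀ k : K,
    ((ev w k l, ev w' k l) : Equiv.Perm V × Equiv.Perm V) ∈ Agr j := by
  induction l with
  | nil => intro k; rw [ev_nil, ev_nil]; exact Agr_B hw k
  | cons x l ih =>
    intro k
    rw [ev_cons, ev_cons]
    exact mul_mem (Agr_B hw k) (mul_mem (Agr_A j) (ih x))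

/-- constant sequences -/
def cs (s : Fin 3) : Sq := fun _ => s

theorem cs_B_triv (s : Fin 3) (k : K) (hk : phi s k = 0) (v : V) : B (cs s) k v = v := by
  induction v with
  | nil => rfl
  | cons h t ih =>
    cases h with
    | false => rw [B_false]; simp [AA, cs, hk]
    | true =>
      rw [B_true]
      have : sh (cs s) = cs s := rfl
      rw [this, ih]

theorem cs_B_eq (s : Fin 3) (k k' : K) (hk : phi s k = phi s k') : B (cs s) k = B (cs s) k' := by
  have h : B (cs s) (k + k') = 1 := by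
    ext v : 1
    exact cs_B_triv s _ (by rw [phi_add, hk]; revert k'; intro k' _; generalize phi s k' = x;
                            revert x; decide) v
  rw [B_add, mul_eq_one_iff_eq_inv, B_inv] at h
  exact h

/-- in the infinite dihedral group squares commute -/
theorem cs_square (s : Fin 3) {g : Equiv.Perm V} (hg : g ∈ G (cs s)) (b : K) (hb : phi s b ≠ 0) :
    ∃ n : ℤ, g = (A * B (cs s) b) ^ n ∨ g = (A * B (cs s) b) ^ n * A := by
  obtain ⟨k, l, rfl⟩ := exists_ev hg
  set T : Equiv.Perm V := A * B (cs s) b with hT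
  have hTi : T⁻¹ = B (cs s) b * A := by rw [hT, mul_inv_rev, A_inv, B_inv]
  have hAT : A * T = B (cs s) b := by rw [hT, ← mul_assoc, A_mul_A, one_mul]
  have hATA : A * T * A = T⁻¹ := by rw [hAT, hTi]
  have hpow : ∀ n : ℤ, A * T ^ n = T ^ (-n) * A := by
    intro n
    have h1 : A * T * A⁻¹ = T⁻¹ := by rw [A_inv]; exact hATA
    have h2 : (A * T * A⁻¹) ^ n = A * T ^ n * A⁻¹ := by rw [conj_zpow]
    rw [h1, inv_zpow] at h2
    rw [zpow_neg, h2, A_inv, mul_assoc, A_mul_A, mul_one]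
  have stepA : ∀ g : Equiv.Perm V, (∃ n : ℤ, g = T ^ n ∨ g = T ^ n * A) →
      ∃ n : ℤ, A * g = T ^ n ∨ A * g = T ^ n * A := by
    rintro g ⟨n, h | h⟩
    · exact ⟨-n, Or.inr (by rw [h, hpow])⟩
    · exact ⟨-n, Or.inl (by rw [h, ← mul_assoc, hpow, mul_assoc, A_mul_A, mul_one])⟩
  have stepb : ∀ g : Equiv.Perm V, (∃ n : ℤ, g = T ^ n ∨ g = T ^ n * A) →
      ∃ n : ℤ, B (cs s) b * g = T ^ n ∨ B (cs s) b * g = T ^ n * A := by
    intro g hg
    have hg' : ∃ n : ℤ, T * g = T ^ n ∨ T * g = T ^ n * A := by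
      obtain ⟨n, h | h⟩ := hg
      · exact ⟨1 + n, Or.inl (by rw [h, zpow_add, zpow_one])⟩
      · exact ⟨1 + n, Or.inr (by rw [h, ← mul_assoc, zpow_add, zpow_one])⟩
    have := stepA _ hg'
    rw [← mul_assoc, hAT] at this
    exact this
  have stepB : ∀ (x : K) (g : Equiv.Perm V), (∃ n : ℤ, g = T ^ n ∨ g = T ^ n * A) →
      ∃ n : ℤ, B (cs s) x * g = T ^ n ∨ B (cs s) x * g = T ^ n * A := by
    intro x g hg
    by_cases hx : phi s x = 0
    · have : B (cs s) x = 1 := by ext v : 1; exact cs_B_triv s x hx v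
      rw [this, one_mul]; exact hg
    · have : phi s x = phi s b := by
        have h2 : ∀ y z : ZMod 2, y ≠ 0 → z ≠ 0 → y = z := by decide
        exact h2 _ _ hx hb
      rw [cs_B_eq s x b this]
      exact stepb g hg
  clear hg
  induction l generalizing k with
  | nil =>
    rw [ev_nil]
    have := stepB k 1 ⟨0, Or.inl (by rw [zpow_zero])⟩
    rw [mul_one] at this; exact this
  | cons x l ih =>
    rw [ev_cons]
    exact stepB k _ (stepA _ (ih x))

theorem cs_Fw (s : Fin 3) {p q : Equiv.Perm V} (hp : p ∈ G (cs s)) (hq : q ∈ G (cs s)) :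
    Fw p q = 1 := by
  have hex : ∀ s : Fin 3, ∃ b : K, phi s b ≠ 0 := by decide
  obtain ⟨b, hb⟩ := hex s
  set T : Equiv.Perm V := A * B (cs s) b with hT
  have hsq : ∀ g : Equiv.Perm V, g ∈ G (cs s) → ∃ n : ℤ, g * g = T ^ n := by
    intro g hg
    obtain ⟨n, h | h⟩ := cs_square s hg b hb
    · exact ⟨n + n, by rw [h, zpow_add]⟩
    · refine ⟨0, ?_⟩
      have hATA : A * T * A⁻¹ = T⁻¹ := by
        rw [A_inv, hT, mul_inv_rev, A_inv, B_inv, ← mul_assoc, A_mul_A, one_mul]
      have h2 : (A * T * A⁻¹) ^ n = A * T ^ n * A⁻¹ := by rw [conj_zpow]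
      rw [hATA, inv_zpow, A_inv] at h2
      rw [h, zpow_zero]
      calc T ^ n * A * (T ^ n * A) = T ^ n * (A * T ^ n * A) := by simp only [mul_assoc]
        _ = 1 := by rw [← h2, mul_inv_cancel]
  obtain ⟨n, hn⟩ := hsq p hp
  obtain ⟨m, hm⟩ := hsq q hq
  rw [Fw, hn, hm, ← zpow_neg, ← zpow_neg, ← zpow_add, ← zpow_add, ← zpow_add,
    show n + m + -n + -m = 0 by ring, zpow_zero]

theorem Fw_mem {H : Type} [Group H] (S : Subgroup H) {p q : H} (hp : p ∈ S) (hq : q ∈ S) :
    Fw p q ∈ S :=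
  mul_mem (mul_mem (mul_mem (mul_mem hp hp) (mul_mem hq hq)) (inv_mem (mul_mem hp hp)))
    (inv_mem (mul_mem hq hq))

/-- along a run of a constant symbol, `[p², q²]` fixes the levels of the run -/
theorem run_Fw {w : Sq} {j : ℕ} {s : Fin 3} (hw : ∀ n < j, w n = s) {p q : Equiv.Perm V}
    (hp : p ∈ G w) (hq : q ∈ G w) : Fw p q ∈ D j (G (shn j w) : Set (Equiv.Perm V)) := by
  refine mem_D_of_fix j w _ (Fw_mem _ hp hq) ?_
  obtain ⟨k, l, rfl⟩ := exists_ev hp
  obtain ⟨k', l', rfl⟩ := exists_ev hq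
  have hw' : ∀ n < j, w n = cs s n := hw
  have h := Fw_mem (Agr j) (Agr_ev hw' l k) (Agr_ev hw' l' k')
  intro v hv
  have h3 := h.2.2 v hv
  have e : (Fw ((ev w k l, ev (cs s) k l) : Equiv.Perm V × Equiv.Perm V)
      (ev w k' l', ev (cs s) k' l')).2 = 1 := cs_Fw s (ev_mem _ k l) (ev_mem _ k' l')
  rw [e] at h3
  exact h3

/-- the words: `V₀ = x₀`, `V_{i+1} = [V_i(even variables)², V_i(odd variables)²]` -/
def Vw : ℕ → FreeGroup ℕ
  | 0 => FreeGroup.of 0
  | i + 1 => Fw (FreeGroup.map (fun n => 2 * n) (Vw i)) (FreeGroup.map (fun n => 2 * n + 1) (Vw i))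

theorem map_Fw {H H' : Type} [Group H] [Group H'] (f : H →* H') (x y : H) :
    f (Fw x y) = Fw (f x) (f y) := by
  simp [Fw]

theorem lift_Vw_succ {H : Type} [Group H] (f : ℕ → H) (i : ℕ) :
    FreeGroup.lift f (Vw (i + 1)) =
      Fw (FreeGroup.lift (fun n => f (2 * n)) (Vw i))
        (FreeGroup.lift (fun n => f (2 * n + 1)) (Vw i)) := by
  have h : ∀ (g : ℕ → ℕ) (x : FreeGroup ℕ),
      FreeGroup.lift f (FreeGroup.map g x) = FreeGroup.lift (fun n => f (g n)) x := by
    intro g x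
    have hc : (FreeGroup.lift f).comp (FreeGroup.map g) = FreeGroup.lift (fun n => f (g n)) := by
      ext n; simp
    exact DFunLike.congr_fun hc x
  show FreeGroup.lift f (Fw _ _) = _
  rw [map_Fw, h, h]

/-- `m` are the boundaries of the runs of the sequence `w` -/
def Runs (w : Sq) (m : ℕ → ℕ) : Prop :=
  m 0 = 0 ∧ (∀ i, m i ≤ m (i + 1)) ∧ ∀ i n, m i ≤ n → n < m (i + 1) → w n = w (m i)

theorem Vw_mem_D {w : Sq} {m : ℕ → ℕ} (hm : Runs w m) (i : ℕ) :
    ∀ f : ℕ → Equiv.Perm V, (∀ n, f n ∈ G w) →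
      FreeGroup.lift f (Vw i) ∈ D (m i) (G (shn (m i) w) : Set (Equiv.Perm V)) := by
  induction i with
  | zero =>
    intro f hf
    rw [hm.1]
    have : shn 0 w = w := rfl
    rw [this]
    show FreeGroup.lift f (FreeGroup.of 0) ∈ (G w : Set (Equiv.Perm V))
    rw [FreeGroup.lift_apply_of]
    exact hf 0
  | succ i ih =>
    intro f hf
    rw [lift_Vw_succ]
    have h1 := ih (fun n => f (2 * n)) (fun n => hf _)
    have h2 := ih (fun n => f (2 * n + 1)) (fun n => hf _)
    have hle := hm.2.1 i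
    have key : ∀ p ∈ (G (shn (m i) w) : Set (Equiv.Perm V)),
        ∀ q ∈ (G (shn (m i) w) : Set (Equiv.Perm V)),
        Fw p q ∈ D (m (i + 1) - m i) (G (shn (m (i + 1)) w) : Set (Equiv.Perm V)) := by
      intro p hp q hq
      have := run_Fw (w := shn (m i) w) (j := m (i + 1) - m i) (s := w (m i))
        (fun n hn => hm.2.2 i (n + m i) (by omega) (by omega)) hp hq
      rw [shn_shn, Nat.sub_add_cancel hle] at this
      exact this
    have h3 := D_map (m i) key _ h1 _ h2
    rw [D_add, Nat.sub_add_cancel hle] at h3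
    exact h3

end Pool.Agent.SlowLaws
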