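import Pool.Agent.SlowLaws.Sections

/-!
# Subexponential growth

For a weight function `len` adapted to the next symbol of the sequence, the series
`∑ exp (-s len g)` over the group converges for every `s > 0`.
-/

set_option autoImplicit false

namespace Pool.Agent.SlowLaws

/-- weights of the elements of the Klein four group, adapted to the next symbol `s` -/
def wt (s : Fin 3) (k : K) : ℕ :=
  if k = 0 then 0 else if phi s k = 0 then 5 else if phi (s + 1) k = 0 then 8 else 12

theorem wt_zero (s : Fin 3) : wt s 0 = 0 := by revert s; decide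

theorem wt_add (s : Fin 3) (x y : K) : wt s (x + y) ≤ wt s x + wt s y := by
  revert s x y; decide

theorem wt_le (s : Fin 3) (x : K) : wt s x ≤ 12 := by revert s x; decide

theorem cost_adv (s : Fin 3) (x : K) : 6 * cost 10 (wt (s + 1)) s x ≤ 5 * (10 + wt s x) := by
  revert s x; decide

theorem cost_stay (s : Fin 3) (x : K) : cost 10 (wt s) s x ≤ 10 + wt s x := by
  revert s x; decide

/-- weight of a representative -/
def WW (w : Sq) (k : K) (l : List K) : ℕ := W 10 (wt (w 0)) k l

open Classical in
/-- weighted length (zero by convention outside the group) -/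
noncomputable def len (w : Sq) (g : Equiv.Perm V) : ℕ :=
  sInf {n | ∃ k l, ev w k l = g ∧ WW w k l = n}

theorem len_le (w : Sq) (k : K) (l : List K) : len w (ev w k l) ≤ WW w k l :=
  Nat.sInf_le ⟨k, l, rfl, rfl⟩

theorem exists_min {w : Sq} {g : Equiv.Perm V} (hg : g ∈ G w) :
    ∃ k l, ev w k l = g ∧ WW w k l = len w g := by
  obtain ⟨k, l, h⟩ := exists_ev hg
  exact Nat.sInf_mem (s := {n | ∃ k l, ev w k l = g ∧ WW w k l = n}) ⟨_, k, l, h, rfl⟩

theorem sum_le_sum_map (l : List K) (f g : K → ℕ) (h : ∀ x, f x ≤ g x) :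
    (l.map f).sum ≤ (l.map g).sum := by
  induction l with
  | nil => simp
  | cons x l ih =>
    have := h x
    simp only [List.map_cons, List.sum_cons]; omega

theorem sum_map_mul (l : List K) (c : ℕ) (f : K → ℕ) :
    (l.map (fun x => c * f x)).sum = c * (l.map f).sum := by
  induction l with
  | nil => simp
  | cons x l ih => simp only [List.map_cons, List.sum_cons, ih]; ring

/-- the sections of `g` or of `A * g`, with the length estimate; `(p, q) = (6, 5)` at a level
where the symbol advances and `(1, 1)` at a level where it stays -/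
theorem step {w : Sq} {p q : ℕ}
    (h : ∀ x, p * cost 10 (wt (w 1)) (w 0) x ≤ q * (10 + wt (w 0) x))
    {g : Equiv.Perm V} (hg : g ∈ G w) :
    ∃ (b : Bool) (g0 g1 : Equiv.Perm V), g0 ∈ G (sh w) ∧ g1 ∈ G (sh w) ∧
      Dec (if b then A * g else g) g0 g1 ∧
      p * (len (sh w) g0 + len (sh w) g1) ≤ q * (len w g + 20) := by
  have key : ∀ (k : K) (l : List K), par l = false → ∃ g0 g1 : Equiv.Perm V,
      g0 ∈ G (sh w) ∧ g1 ∈ G (sh w) ∧ Dec (ev w k l) g0 g1 ∧
      p * (len (sh w) g0 + len (sh w) g1) ≤ q * (WW w k l + 10) := by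
    intro k l hp
    obtain ⟨k0, l0, k1, l1, hd, hW, _⟩ := dec_of_par (w := w) (k := k) hp
    refine ⟨_, _, ev_mem _ k0 l0, ev_mem _ k1 l1, hd, ?_⟩
    have h1 := hW 10 (wt (w 1)) (wt_zero _) (wt_add _)
    have h2 := len_le (sh w) k0 l0
    have h3 := len_le (sh w) k1 l1
    have h4 : WW (sh w) k0 l0 + WW (sh w) k1 l1 ≤
        cost 10 (wt (w 1)) (w 0) k + (l.map (cost 10 (wt (w 1)) (w 0))).sum := h1
    calc p * (len (sh w) (ev (sh w) k0 l0) + len (sh w) (ev (sh w) k1 l1))
        ≤ p * (cost 10 (wt (w 1)) (w 0) k + (l.map (cost 10 (wt (w 1)) (w 0))).sum) :=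
          Nat.mul_le_mul_left _ (by omega)
      _ = p * cost 10 (wt (w 1)) (w 0) k +
            (l.map (fun x => p * cost 10 (wt (w 1)) (w 0) x)).sum := by
          rw [sum_map_mul]; ring
      _ ≤ q * (10 + wt (w 0) k) + (l.map (fun x => q * (10 + wt (w 0) x))).sum :=
          Nat.add_le_add (h k) (sum_le_sum_map l _ _ h)
      _ = q * (WW w k l + 10) := by
          rw [sum_map_mul, WW, W]; ring
  obtain ⟨k, l, h1, h2⟩ := exists_min hg
  cases hp : par l with
  | false =>
    obtain ⟨g0, g1, m0, m1, hd, hle⟩ := key k l hp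
    refine ⟨false, g0, g1, m0, m1, ?_, hle.trans (Nat.mul_le_mul_left _ (by omega))⟩
    rw [h1] at hd; simpa using hd
  | true =>
    obtain ⟨g0, g1, m0, m1, hd, hle⟩ := key 0 (k :: l) (by simp [par, hp])
    refine ⟨true, g0, g1, m0, m1, ?_, hle.trans (Nat.mul_le_mul_left _ ?_)⟩
    · rw [← A_mul_ev, h1] at hd; simpa using hd
    · have : WW w 0 (k :: l) = 10 + WW w k l := by
        simp only [WW]; rw [W_cons, wt_zero]; omega
      omega

/-- summability of `exp (-s len)` -/
def SM (w : Sq) (s : ℝ) : Prop := Summable (fun g : G w => Real.exp (-(s * len w g)))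

theorem SM_step {w : Sq} {p q : ℕ} (hq : 0 < q)
    (h : ∀ x, p * cost 10 (wt (w 1)) (w 0) x ≤ q * (10 + wt (w 0) x)) {s : ℝ} (hs : 0 < s)
    (hS : SM (sh w) (s * p / q)) : SM w s := by
  classical
  have hch : ∀ g : G w, ∃ x : Bool × (G (sh w)) × (G (sh w)),
      Dec (if x.1 then A * (g : Equiv.Perm V) else g) x.2.1 x.2.2 ∧
      p * (len (sh w) x.2.1 + len (sh w) x.2.2) ≤ q * (len w g + 20) := by
    intro g
    obtain ⟨b, g0, g1, m0, m1, hd, hle⟩ := step h g.2
    exact ⟨(b, ⟨g0, m0⟩, ⟨g1, m1⟩), hd, hle⟩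
  choose F hF1 hF2 using hch
  have hinj : Function.Injective F := by
    intro g g' hgg
    have h1 := hF1 g
    have h2 := hF1 g'
    rw [← hgg] at h2
    have h3 := h1.unique h2
    apply Subtype.ext
    by_cases hb : (F g).1 = true
    · rw [if_pos hb, if_pos hb] at h3
      exact mul_left_cancel h3
    · rw [if_neg hb, if_neg hb] at h3
      exact h3
  set f : G (sh w) → ℝ := fun g => Real.exp (-((s * p / q) * len (sh w) g)) with hf
  have hfnn : ∀ g, 0 ≤ f g := fun g => (Real.exp_pos _).le
  have hprod : Summable (fun x : G (sh w) × G (sh w) => f x.1 * f x.2) :=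
    Summable.mul_of_nonneg hS hS hfnn hfnn
  have hprod' : Summable (fun x : Bool × (G (sh w)) × (G (sh w)) =>
      (1 : ℝ) * (f x.2.1 * f x.2.2)) := by
    have hb : Summable (fun _ : Bool => (1 : ℝ)) := Summable.of_finite
    exact Summable.mul_of_nonneg hb hprod (fun _ => zero_le_one)
      (fun x => mul_nonneg (hfnn _) (hfnn _))
  have hcomp := (hprod'.comp_injective hinj).mul_left (Real.exp (20 * s))
  refine Summable.of_nonneg_of_le (fun g => (Real.exp_pos _).le) (fun g => ?_) hcomp
  simp only [Function.comp_apply, hf, one_mul, ← Real.exp_add]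
  rw [Real.exp_le_exp]
  have h2 : ((p * (len (sh w) (F g).2.1 + len (sh w) (F g).2.2) : ℕ) : ℝ) ≤
      ((q * (len w g + 20) : ℕ) : ℝ) := by exact_mod_cast hF2 g
  push_cast at h2
  have hq' : (0 : ℝ) < q := by exact_mod_cast hq
  have h3 : s * p / q * (len (sh w) (F g).2.1 + len (sh w) (F g).2.2) ≤
      s * (len w g + 20) := by
    rw [div_mul_eq_mul_div, div_le_iff₀ hq']
    calc s * p * (len (sh w) (F g).2.1 + len (sh w) (F g).2.2)
        = s * (p * (len (sh w) (F g).2.1 + len (sh w) (F g).2.2)) := by ring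
      _ ≤ s * (q * (len w g + 20)) := mul_le_mul_of_nonneg_left h2 hs.le
      _ = s * (len w g + 20) * q := by ring
  nlinarith [h3]

theorem summable_list {r : ℝ} (h0 : 0 ≤ r) (h1 : 4 * r < 1) :
    Summable (fun l : List K => r ^ l.length) := by
  have e := (Equiv.sigmaFiberEquiv (List.length : List K → ℕ))
  rw [← (Equiv.sigmaFiberEquiv (List.length : List K → ℕ)).summable_iff]
  rw [summable_sigma_of_nonneg (fun x => by
    simp only [Function.comp_apply]; positivity)]
  have hfin : ∀ n : ℕ, Finite {l : List K // l.length = n} := fun n =>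
    (List.finite_length_eq K n).to_subtype
  constructor
  · intro n
    have := hfin n
    exact Summable.of_finite
  · have hcard : ∀ n : ℕ, Nat.card {l : List K // l.length = n} = 4 ^ n := by
      intro n
      have : Nat.card (List.Vector K n) = 4 ^ n := by
        rw [Nat.card_eq_fintype_card, card_vector]
        rfl
      exact this
    have hterm : ∀ n : ℕ, ∑' y : {l : List K // l.length = n},
        ((fun l : List K => r ^ l.length) ∘ (Equiv.sigmaFiberEquiv (List.length : List K → ℕ)))
          ⟨n, y⟩ = (4 * r) ^ n := by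
      intro n
      have := hfin n
      have : ∀ y : {l : List K // l.length = n},
          ((fun l : List K => r ^ l.length) ∘
            (Equiv.sigmaFiberEquiv (List.length : List K → ℕ))) ⟨n, y⟩ = r ^ n := by
        intro y
        show r ^ (y : List K).length = r ^ n
        rw [y.2]
      rw [tsum_congr this, tsum_const, hcard, nsmul_eq_mul, mul_pow]
      push_cast; ring
    simp only [hterm]
    exact summable_geometric_of_lt_one (by linarith) h1

theorem SM_base (w : Sq) {s : ℝ} (hs : 1 ≤ s) : SM w s := by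
  classical
  have hch : ∀ g : G w, ∃ x : K × List K, ev w x.1 x.2 = g ∧ WW w x.1 x.2 = len w g := by
    intro g
    obtain ⟨k, l, h1, h2⟩ := exists_min g.2
    exact ⟨(k, l), h1, h2⟩
  choose F hF1 hF2 using hch
  have hinj : Function.Injective F := by
    intro g g' hgg
    have h1 := hF1 g
    have h2 := hF1 g'
    rw [hgg] at h1
    exact Subtype.ext (h1.symm.trans h2)
  have hr0 : (0 : ℝ) ≤ Real.exp (-10) := (Real.exp_pos _).le
  have hr1 : 4 * Real.exp (-10) < 1 := by
    have h1 : (11 : ℝ) ≤ Real.exp 10 := by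
      have := Real.add_one_le_exp (10 : ℝ); linarith
    rw [Real.exp_neg, ← div_eq_mul_inv, div_lt_one (Real.exp_pos _)]
    linarith
  have hl := summable_list hr0 hr1
  have hb : Summable (fun _ : K => (1 : ℝ)) := Summable.of_finite
  have hprod : Summable (fun x : K × List K => (1 : ℝ) * Real.exp (-10) ^ x.2.length) :=
    Summable.mul_of_nonneg hb hl (fun _ => zero_le_one) (fun x => by positivity)
  have hcomp := hprod.comp_injective hinj
  refine Summable.of_nonneg_of_le (fun g => (Real.exp_pos _).le) (fun g => ?_) hcomp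
  simp only [Function.comp_apply, one_mul]
  rw [← Real.exp_nat_mul, Real.exp_le_exp, ← hF2 g]
  have hW : ∀ (l : List K) (k : K), 10 * l.length ≤ WW w k l := by
    intro l
    induction l with
    | nil => intro k; simp
    | cons x l ih =>
      intro k
      have := ih x
      simp only [WW] at *
      rw [W_cons, List.length_cons]; omega
  have h1 : ((10 * (F g).2.length : ℕ) : ℝ) ≤ (WW w (F g).1 (F g).2 : ℝ) := by
    exact_mod_cast hW _ _
  push_cast at h1
  have h2 : (0 : ℝ) ≤ (WW w (F g).1 (F g).2 : ℝ) := Nat.cast_nonneg _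
  nlinarith

/-- admissible sequences: each symbol is followed by itself or by the next one, and the symbol
advances infinitely often -/
def Good (w : Sq) : Prop :=
  (∀ n, w (n + 1) = w n ∨ w (n + 1) = w n + 1) ∧ ∀ N, ∃ n, N ≤ n ∧ w (n + 1) = w n + 1

theorem Good.sh {w : Sq} (h : Good w) : Good (sh w) := by
  refine ⟨fun n => h.1 (n + 1), fun N => ?_⟩
  obtain ⟨n, hn, hn'⟩ := h.2 (N + 1)
  obtain ⟨m, rfl⟩ : ∃ m, n = m + 1 := ⟨n - 1, by omega⟩
  exact ⟨m, by omega, hn'⟩

theorem SM_all (c : ℕ) : ∀ (w : Sq), Good w → ∀ s : ℝ, 0 < s → 1 ≤ s * (6 / 5) ^ c → SM w s := by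
  induction c with
  | zero => intro w _ s _ h; exact SM_base w (by simpa using h)
  | succ c ih =>
    have inner : ∀ (n : ℕ) (w : Sq), Good w → w (n + 1) = w n + 1 → ∀ s : ℝ, 0 < s →
        1 ≤ s * (6 / 5) ^ (c + 1) → SM w s := by
      intro n
      induction n with
      | zero =>
        intro w hw hn s hs h1
        refine SM_step (p := 6) (q := 5) (by norm_num) ?_ hs ?_
        · intro x
          have : w 1 = w 0 + 1 := hn
          rw [this]; exact cost_adv (w 0) x
        · push_cast
          refine ih (sh w) hw.sh _ (by positivity) ?_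
          rw [pow_succ] at h1
          calc (1 : ℝ) ≤ s * ((6 / 5) ^ c * (6 / 5)) := h1
            _ = s * 6 / 5 * (6 / 5) ^ c := by ring
      | succ n ihn =>
        intro w hw hn s hs h1
        rcases hw.1 0 with h | h
        · refine SM_step (p := 1) (q := 1) (by norm_num) ?_ hs ?_
          · intro x
            have : w 1 = w 0 := h
            rw [this]
            have := cost_stay (w 0) x
            omega
          · have := ihn (sh w) hw.sh hn s hs h1
            simpa using this
        · refine SM_step (p := 6) (q := 5) (by norm_num) ?_ hs ?_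
          · intro x
            have : w 1 = w 0 + 1 := h
            rw [this]; exact cost_adv (w 0) x
          · push_cast
            refine ih (sh w) hw.sh _ (by positivity) ?_
            rw [pow_succ] at h1
            calc (1 : ℝ) ≤ s * ((6 / 5) ^ c * (6 / 5)) := h1
              _ = s * 6 / 5 * (6 / 5) ^ c := by ring
    intro w hw s hs h1
    obtain ⟨n, _, hn⟩ := hw.2 0
    exact inner n w hw hn s hs h1

/-- the series converges for every positive `s` -/
theorem SM_good {w : Sq} (hw : Good w) {s : ℝ} (hs : 0 < s) : SM w s := by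
  obtain ⟨c, hc⟩ := pow_unbounded_of_one_lt (1 / s) (show (1 : ℝ) < 6 / 5 by norm_num)
  refine SM_all c w hw s hs ?_
  rw [div_lt_iff₀ hs] at hc
  linarith

/-- a finite set of elements of weighted length at most `12 n` has subexponential size -/
theorem card_bound {w : Sq} (hw : Good w) {s : ℝ} (hs : 0 < s) :
    ∃ C : ℝ, 0 < C ∧ ∀ (n : ℕ) (E : Finset (G w)),
      (∀ g ∈ E, len w g ≤ 12 * n) → (E.card : ℝ) ≤ C * Real.exp (12 * s * n) := by
  have hS := SM_good hw hs
  refine ⟨(∑' g : G w, Real.exp (-(s * len w g))) + 1, ?_, ?_⟩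
  · have : 0 ≤ ∑' g : G w, Real.exp (-(s * len w g)) := tsum_nonneg (fun _ => (Real.exp_pos _).le)
    linarith
  · intro n E hE
    have h1 : ∑ g ∈ E, Real.exp (-(s * len w g)) ≤ ∑' g : G w, Real.exp (-(s * len w g)) :=
      hS.sum_le_tsum E (fun _ _ => (Real.exp_pos _).le)
    have h2 : (E.card : ℝ) * Real.exp (-(12 * s * n)) ≤ ∑ g ∈ E, Real.exp (-(s * len w g)) := by
      rw [← nsmul_eq_mul]
      refine Finset.card_nsmul_le_sum E _ _ (fun g hg => ?_)
      rw [Real.exp_le_exp]
      have : (len w g : ℝ) ≤ 12 * n := by exact_mod_cast hE g hg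
      nlinarith
    have h3 : (E.card : ℝ) * Real.exp (-(12 * s * n)) ≤
        (∑' g : G w, Real.exp (-(s * len w g))) + 1 := by linarith
    rw [Real.exp_neg, ← div_eq_mul_inv, div_le_iff₀ (Real.exp_pos _)] at h3
    exact h3

end Pool.Agent.SlowLaws
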