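import Pool.Agent.SlowLaws.Derived
import Pool.Agent.SlowLaws.Subexp
import Pool.Agent.SlowLaws.Superpoly

/-!
# Assembly: choice of the sequence, and the statement for abstract groups
-/

set_option autoImplicit false

namespace Pool.Agent.SlowLaws

/-- index of the run containing `n` -/
def idx (m : ℕ → ℕ) (n : ℕ) : ℕ := Nat.findGreatest (fun i => m i ≤ n) n

/-- the sequence of symbols with run boundaries `m` -/
def seqOf (m : ℕ → ℕ) : Sq := fun n => Fin.ofNat 3 (idx m n)

theorem idx_eq {m : ℕ → ℕ} (hm : StrictMono m) {i n : ℕ} (h1 : m i ≤ n)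
    (h2 : n < m (i + 1)) : idx m n = i := by
  rw [idx, Nat.findGreatest_eq_iff]
  refine ⟨(hm.id_le i).trans h1, fun _ => h1, fun k hk1 _ h => ?_⟩
  have : m (i + 1) ≤ m k := hm.monotone hk1
  omega

theorem exists_idx {m : ℕ → ℕ} (hm0 : m 0 = 0) (hm : StrictMono m) (n : ℕ) :
    ∃ i, m i ≤ n ∧ n < m (i + 1) := by
  refine ⟨idx m n, ?_, ?_⟩
  · exact Nat.findGreatest_spec (P := fun i => m i ≤ n) (m := 0) (Nat.zero_le n) (by
      rw [hm0]; exact Nat.zero_le n)
  · by_contra h
    push Not at h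
    have h1 : idx m n + 1 ≤ n := (hm.id_le _).trans h
    have h2 : idx m n + 1 ≤ idx m n := Nat.le_findGreatest h1 h
    omega

theorem ofNat_succ (i : ℕ) : Fin.ofNat 3 (i + 1) = Fin.ofNat 3 i + 1 := by
  apply Fin.ext
  simp [Fin.val_add, Fin.ofNat]

theorem seqOf_eq {m : ℕ → ℕ} (hm : StrictMono m) {i n : ℕ} (h1 : m i ≤ n)
    (h2 : n < m (i + 1)) : seqOf m n = Fin.ofNat 3 i := by
  rw [seqOf, idx_eq hm h1 h2]

theorem seqOf_good {m : ℕ → ℕ} (hm0 : m 0 = 0) (hm : StrictMono m) : Good (seqOf m) := by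
  constructor
  · intro n
    obtain ⟨i, h1, h2⟩ := exists_idx hm0 hm n
    by_cases h3 : n + 1 < m (i + 1)
    · left
      rw [seqOf_eq hm h1 h2, seqOf_eq hm (by omega) h3]
    · right
      have h4 : m (i + 1) < m (i + 1 + 1) := hm (by omega)
      rw [seqOf_eq hm h1 h2, seqOf_eq hm (i := i + 1) (by omega) (by omega), ofNat_succ]
  · intro N
    have h1 : N + 1 ≤ m (N + 1) := hm.id_le _
    have h2 : m N < m (N + 1) := hm (by omega)
    have h3 : m (N + 1) < m (N + 1 + 1) := hm (by omega)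
    refine ⟨m (N + 1) - 1, by omega, ?_⟩
    rw [seqOf_eq hm (i := N + 1) (by omega) (by omega), seqOf_eq hm (i := N) (by omega) (by omega),
      ofNat_succ]

theorem seqOf_runs {m : ℕ → ℕ} (hm0 : m 0 = 0) (hm : StrictMono m) : Runs (seqOf m) m := by
  refine ⟨hm0, fun i => (hm (by omega)).le, fun i n h1 h2 => ?_⟩
  have h3 : m i < m (i + 1) := hm (by omega)
  rw [seqOf_eq hm h1 h2, seqOf_eq hm le_rfl h3]

theorem sq_lt_two_pow (n : ℕ) (hn : 5 ≤ n) : n * n < 2 ^ n := by
  induction n, hn using Nat.le_induction with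
  | base => norm_num
  | succ n hn ih =>
    rw [pow_succ]
    nlinarith

/-- the balls of the group are not polynomially bounded -/
theorem superpoly {m : ℕ → ℕ} (hm : StrictMono m)
    (h2m : ∀ i, 2 * m i + i + 1 ≤ m (i + 1)) (C d : ℕ) :
    ∃ n, C * (n + 1) ^ d < (Ball (seqOf m) n).ncard := by
  set i := C + 6 * d + 5 with hi
  set j := m (i + 1) - m i with hj
  have h3 := h2m i
  have hji : i ≤ j := by omega
  have hjm : m i ≤ j := by omega
  refine ⟨3 ^ m i * (5 * 2 ^ j), ?_⟩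
  have hrun : 2 ^ (2 ^ j) ≤ (Ball (shn (m i) (seqOf m)) (5 * 2 ^ j)).ncard := by
    refine card_run (s := Fin.ofNat 3 i) ?_ ?_
    · intro n hn
      show seqOf m (n + m i) = _
      exact seqOf_eq hm (by omega) (by omega)
    · show seqOf m (j + m i) ≠ _
      have h4 : m (i + 1) < m (i + 1 + 1) := hm (by omega)
      rw [seqOf_eq hm (i := i + 1) (by omega) (by omega), ofNat_succ]
      generalize Fin.ofNat 3 i = x
      revert x; decide
  refine lt_of_lt_of_le ?_ (hrun.trans (card_lift_shn (m i) (seqOf m) (5 * 2 ^ j)))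
  have h5 : 3 ^ m i * (5 * 2 ^ j) + 1 ≤ 6 ^ (j + 1) := by
    have e1 : 3 ^ m i ≤ 3 ^ j := Nat.pow_le_pow_right (by norm_num) hjm
    have e2 : 3 ^ j * 2 ^ j = 6 ^ j := by rw [← mul_pow]; norm_num
    have e3 : 1 ≤ 6 ^ j := Nat.one_le_pow _ _ (by norm_num)
    calc 3 ^ m i * (5 * 2 ^ j) + 1 ≤ 3 ^ j * (5 * 2 ^ j) + 1 := by
          have := Nat.mul_le_mul_right (5 * 2 ^ j) e1
          omega
      _ = 5 * 6 ^ j + 1 := by rw [← e2]; ring
      _ ≤ 6 ^ (j + 1) := by rw [pow_succ]; omega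
  have h6 : (6 : ℕ) ^ (j + 1) ≤ 2 ^ (3 * (j + 1)) := by
    rw [pow_mul]
    exact Nat.pow_le_pow_left (by norm_num) _
  have h7 : C + 3 * (j + 1) * d < 2 ^ j := by
    refine lt_of_le_of_lt ?_ (sq_lt_two_pow j (by omega))
    have h8 : C + 6 * d + 5 ≤ j := hji
    nlinarith
  calc C * (3 ^ m i * (5 * 2 ^ j) + 1) ^ d ≤ 2 ^ C * (2 ^ (3 * (j + 1))) ^ d := by
        refine Nat.mul_le_mul (Nat.lt_two_pow_self).le ?_
        exact Nat.pow_le_pow_left (h5.trans h6) d
    _ = 2 ^ (C + 3 * (j + 1) * d) := by rw [← pow_mul, ← pow_add]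
    _ < 2 ^ (2 ^ j) := Nat.pow_lt_pow_right (by norm_num) h7

/-! ### abstract balls -/

/-- ball of radius `n` in a group with respect to a finite set -/
def AB {H : Type} [Group H] (S : Finset H) (n : ℕ) : Set H :=
  {g : H | ∃ l : List H, l.length ≤ n ∧ (∀ x ∈ l, x ∈ S ∨ x⁻¹ ∈ S) ∧ l.prod = g}

theorem genf_mem (w : Sq) (i : Fin 4) : genf w i ∈ G w :=
  Subgroup.subset_closure (by rw [← range_genf]; exact ⟨i, rfl⟩)

open Classical in
/-- the generating set of `G w` -/
noncomputable def SS (w : Sq) : Finset (G w) :=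
  Finset.univ.image (fun i : Fin 4 => (⟨genf w i, genf_mem w i⟩ : G w))

theorem mem_SS {w : Sq} {x : G w} : x ∈ SS w ↔ (x : Equiv.Perm V) ∈ gens w := by
  rw [← range_genf]
  simp only [SS, Finset.mem_image, Finset.mem_univ, true_and, Set.mem_range]
  constructor
  · rintro ⟨i, rfl⟩; exact ⟨i, rfl⟩
  · rintro ⟨i, hi⟩; exact ⟨i, Subtype.ext hi⟩

theorem SS_card (w : Sq) : (SS w).card ≤ 4 := by
  classical
  refine (Finset.card_image_le).trans ?_
  simp

theorem SS_closure (w : Sq) : Subgroup.closure ((SS w : Finset (G w)) : Set (G w)) = ⊤ := by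
  have h : ((SS w : Finset (G w)) : Set (G w)) = ((↑) : G w → Equiv.Perm V) ⁻¹' gens w := by
    ext x
    rw [Finset.mem_coe, mem_SS]; rfl
  rw [h]
  exact Subgroup.closure_closure_coe_preimage

theorem gens_inv {w : Sq} {x : Equiv.Perm V} (hx : x⁻¹ ∈ gens w) : x ∈ gens w := by
  have : ∀ y ∈ gens w, y⁻¹ = y := by
    intro y hy
    simp only [gens, Set.mem_insert_iff, Set.mem_singleton_iff] at hy
    rcases hy with h | h | h | h
    · rw [h, A_inv]
    all_goals rw [h, B_inv]
  have h1 := this _ hx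
  rw [inv_inv] at h1
  rw [h1]; exact hx

theorem image_AB (w : Sq) (n : ℕ) :
    ((↑) : G w → Equiv.Perm V) '' AB (SS w) n = Ball w n := by
  ext g
  constructor
  · rintro ⟨g, ⟨l, h1, h2, rfl⟩, rfl⟩
    refine ⟨l.map (↑), by simpa using h1, ?_, ?_⟩
    · intro x hx
      rw [List.mem_map] at hx
      obtain ⟨y, hy, rfl⟩ := hx
      rcases h2 y hy with h | h
      · exact mem_SS.mp h
      · exact gens_inv (mem_SS.mp h)
    · exact (map_list_prod (G w).subtype l).symm
  · rintro ⟨l, h1, h2, rfl⟩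
    have hl : l ∈ Set.range (List.map ((↑) : G w → Equiv.Perm V)) := by
      rw [Set.range_list_map]
      intro x hx
      exact ⟨⟨x, Subgroup.subset_closure (h2 x hx)⟩, rfl⟩
    obtain ⟨l', rfl⟩ := hl
    refine ⟨l'.prod, ⟨l', by simpa using h1, ?_, rfl⟩, map_list_prod (G w).subtype l'⟩
    intro x hx
    left
    exact mem_SS.mpr (h2 _ (List.mem_map.mpr ⟨x, hx, rfl⟩))

theorem ncard_AB (w : Sq) (n : ℕ) : (AB (SS w) n).ncard = (Ball w n).ncard := by
  rw [← image_AB, Set.ncard_image_of_injective _ Subtype.val_injective]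

theorem Ball_rep {w : Sq} {n : ℕ} {g : Equiv.Perm V} (hg : g ∈ Ball w n) :
    ∃ k l, ev w k l = g ∧ W 1 nz k l ≤ n ∧ WW w k l ≤ 12 * n := by
  obtain ⟨l, h1, h2, rfl⟩ := hg
  have main : ∀ l : List (Equiv.Perm V), (∀ x ∈ l, x ∈ gens w) → ∃ k l', ev w k l' = l.prod ∧
      W 1 nz k l' ≤ l.length ∧ WW w k l' ≤ 12 * l.length := by
    intro l
    induction l with
    | nil =>
      intro _
      exact ⟨0, [], by rw [ev_nil, B_zero]; rfl, by simp [W, nz], by simp [WW, W, wt_zero]⟩
    | cons x l ih =>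
      intro hx
      obtain ⟨k, l', e1, e2, e3⟩ := ih (fun y hy => hx y (List.mem_cons_of_mem _ hy))
      have hxg := hx x List.mem_cons_self
      have hB : ∀ y : K, ∃ k2 l2, ev w k2 l2 = B w y * l.prod ∧
          W 1 nz k2 l2 ≤ (x :: l).length ∧ WW w k2 l2 ≤ 12 * (x :: l).length := by
        intro y
        refine ⟨y + k, l', by rw [← B_mul_ev, e1], ?_, ?_⟩
        · have := W_mulB 1 nz nz_add y k l'
          have := nz_le_one y
          rw [List.length_cons]; omega
        · have h5 := W_mulB 10 (wt (w 0)) (wt_add _) y k l'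
          have h6 := wt_le (w 0) y
          rw [List.length_cons]
          simp only [WW] at *
          omega
      have hA : ∃ k2 l2, ev w k2 l2 = A * l.prod ∧
          W 1 nz k2 l2 ≤ (x :: l).length ∧ WW w k2 l2 ≤ 12 * (x :: l).length := by
        refine ⟨0, k :: l', by rw [← A_mul_ev, e1], ?_, ?_⟩
        · rw [W_cons, List.length_cons, nz_zero]; omega
        · rw [List.length_cons]
          simp only [WW] at *
          rw [W_cons, wt_zero]; omega
      rw [List.prod_cons]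
      simp only [gens, Set.mem_insert_iff, Set.mem_singleton_iff] at hxg
      rcases hxg with h | h | h | h
      · rw [h] at hA ⊢; exact hA
      all_goals (have := hB; rw [h] at this ⊢; exact this _)
  obtain ⟨k, l', e1, e2, e3⟩ := main l h2
  exact ⟨k, l', e1, e2.trans h1, by omega⟩

theorem subexp {w : Sq} (hw : Good w) {c : ℝ} (hc : 1 < c) :
    ∃ N : ℕ, ∀ n : ℕ, N ≤ n → ((AB (SS w) n).ncard : ℝ) < c ^ n := by
  classical
  have hlog : 0 < Real.log c := Real.log_pos hc
  obtain ⟨M, hM0, hM⟩ := card_bound hw (s := Real.log c / 24) (by positivity)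
  have he : 1 < Real.exp (Real.log c / 2) := by
    rw [Real.one_lt_exp_iff]; positivity
  obtain ⟨N, hN⟩ := pow_unbounded_of_one_lt M he
  refine ⟨N, fun n hn => ?_⟩
  have hfin : (AB (SS w) n).Finite := by
    have h1 := Ball_finite w n
    rw [← image_AB] at h1
    exact Set.Finite.of_finite_image h1 Subtype.val_injective.injOn
  have h1 := hM n hfin.toFinset (by
    intro g hg
    rw [Set.Finite.mem_toFinset] at hg
    have h2 : (g : Equiv.Perm V) ∈ Ball w n := by
      rw [← image_AB]; exact ⟨g, hg, rfl⟩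
    obtain ⟨k, l, e1, _, e3⟩ := Ball_rep h2
    rw [← e1]
    exact (len_le w k l).trans e3)
  rw [← Set.ncard_eq_toFinset_card _ hfin] at h1
  refine lt_of_le_of_lt h1 ?_
  have h3 : M < Real.exp (Real.log c / 2) ^ n := lt_of_lt_of_le hN (pow_le_pow_right₀ he.le hn)
  have h4 : Real.exp (12 * (Real.log c / 24) * n) = Real.exp (Real.log c / 2) ^ n := by
    rw [← Real.exp_nat_mul]; congr 1; ring
  have h5 : c ^ n = Real.exp (Real.log c / 2) ^ n * Real.exp (Real.log c / 2) ^ n := by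
    rw [← mul_pow, ← Real.exp_add, add_halves, Real.exp_log (by linarith)]
  rw [h4, h5]
  exact mul_lt_mul_of_pos_right h3 (by positivity)

/-- boundaries of the runs for a given function `R` -/
def bd (R : ℕ → ℕ) : ℕ → ℕ
  | 0 => 0
  | i + 1 => 2 * bd R i + i + 2 + 4 ^ (2 * i + 2) * R i

theorem bd_mono (R : ℕ → ℕ) : StrictMono (bd R) := by
  refine strictMono_nat_of_lt_succ (fun i => ?_)
  show bd R i < 2 * bd R i + i + 2 + 4 ^ (2 * i + 2) * R i
  omega

/-- the main theorem: for every function `R` there is a group of intermediate growth in which, for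
every `i`, the derived word `dw (2 * i + 3)` vanishes on the ball of radius `R i` -/
theorem exists_group (R : ℕ → ℕ) : ∃ w : Sq,
    (∀ i, ∀ f : ℕ → G w, (∀ m, f m ∈ AB (SS w) (R i)) →
      FreeGroup.lift f (dw (2 * i + 3)) = 1) ∧
    (∀ C d : ℕ, ∃ n : ℕ, C * (n + 1) ^ d < (AB (SS w) n).ncard) ∧
    (∀ c : ℝ, 1 < c → ∃ N : ℕ, ∀ n : ℕ, N ≤ n → ((AB (SS w) n).ncard : ℝ) < c ^ n) := by
  have hm := bd_mono R
  have hm0 : bd R 0 = 0 := rfl
  refine ⟨seqOf (bd R), ?_, ?_, ?_⟩
  · intro i f hf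
    have hb : bd R (i + 1) = 2 * bd R i + i + 2 + 4 ^ (2 * i + 2) * R i := rfl
    have hvan := dw_vanish (seqOf_runs hm0 hm) (R := R i) (i := i) (by omega) ?_
      (fun n => ((f n : G (seqOf (bd R))) : Equiv.Perm V)) ?_
    · apply Subtype.ext
      have hl : ((FreeGroup.lift f (dw (2 * i + 3)) : G (seqOf (bd R))) : Equiv.Perm V) =
          FreeGroup.lift (fun n => ((f n : G (seqOf (bd R))) : Equiv.Perm V))
            (dw (2 * i + 3)) := by
        have hc : (G (seqOf (bd R))).subtype.comp (FreeGroup.lift f) =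
            FreeGroup.lift (fun n => ((f n : G (seqOf (bd R))) : Equiv.Perm V)) := by
          ext1 n; simp
        exact DFunLike.congr_fun hc (dw (2 * i + 3))
      rw [hl, hvan]; rfl
    · have h1 : 4 ^ (2 * i + 2) * R i ≤ bd R (i + 1) - 1 := by omega
      exact h1.trans (Nat.lt_two_pow_self).le
    · intro n
      have h2 : ((f n : G (seqOf (bd R))) : Equiv.Perm V) ∈ Ball (seqOf (bd R)) (R i) := by
        rw [← image_AB]; exact ⟨f n, hf n, rfl⟩
      obtain ⟨k, l, e1, e2, _⟩ := Ball_rep h2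
      exact ⟨k, l, e1, e2⟩
  · intro C d
    obtain ⟨n, hn⟩ := superpoly hm (fun i => by
      show _ ≤ 2 * bd R i + i + 2 + 4 ^ (2 * i + 2) * R i
      omega) C d
    exact ⟨n, by rw [ncard_AB]; exact hn⟩
  · intro c hc
    exact subexp (seqOf_good hm0 hm) hc

end Pool.Agent.SlowLaws
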