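import Pool.Agent.SlowLaws.Defs

/-!
# Sections of elements at the first level, with length estimates
-/

set_option autoImplicit false

namespace Pool.Agent.SlowLaws

/-- weighted length of the representative `(k, l)`: the flip has weight `a` -/
def W (a : ℕ) (f : K → ℕ) (k : K) (l : List K) : ℕ := f k + (l.map (fun x => a + f x)).sum

/-- indicator of a nonzero element -/
def nz (k : K) : ℕ := if k = 0 then 0 else 1

/-- number of nonzero entries -/
def N (k : K) (l : List K) : ℕ := nz k + (l.map nz).sum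

/-- contribution of a letter to the two sections -/
def cost (a : ℕ) (f : K → ℕ) (s : Fin 3) (k : K) : ℕ := f k + if phi s k = 0 then 0 else a

/-- parity of the number of flips -/
def par : List K → Bool
  | [] => false
  | _ :: l => !par l

theorem nz_zero : nz 0 = 0 := rfl

theorem nz_add (x y : K) : nz (x + y) ≤ nz x + nz y := by
  revert x y; decide

theorem nz_phi (s : Fin 3) (x : K) : (if phi s x = 0 then 0 else 1) ≤ nz x := by
  revert s x; decide

theorem nz_le_one (x : K) : nz x ≤ 1 := by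
  revert x; decide

theorem W_cons (a : ℕ) (f : K → ℕ) (k x : K) (l : List K) :
    W a f k (x :: l) = f k + (a + W a f x l) := by
  simp only [W, List.map_cons, List.sum_cons]; omega

theorem N_cons (k x : K) (l : List K) : N k (x :: l) = nz k + N x l := by
  simp only [N, List.map_cons, List.sum_cons]

theorem two_N_le (k : K) (l : List K) : 2 * N k l ≤ W 1 nz k l + 1 := by
  have h : ∀ (l : List K) (k : K), W 1 nz k l = N k l + l.length ∧ N k l ≤ l.length + 1 := by
    intro l
    induction l with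
    | nil =>
      intro k
      have := nz_le_one k
      constructor
      · simp [W, N]
      · simp [N, this]
    | cons x l ih =>
      intro k
      obtain ⟨h1, h2⟩ := ih x
      have := nz_le_one k
      rw [W_cons, N_cons, List.length_cons]
      omega
  obtain ⟨h1, h2⟩ := h l k
  omega

theorem mulA (e : ZMod 2) (k : K) (l : List K) :
    ∃ k' l', (∀ w : Sq, ev w k' l' = AA e * ev w k l) ∧ ∀ (a : ℕ) (f : K → ℕ), f 0 = 0 →
      W a f k' l' ≤ (if e = 0 then 0 else a) + W a f k l := by
  by_cases he : e = 0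
  · refine ⟨k, l, ?_, ?_⟩
    · simp [AA, he]
    · intro a f _; simp [he]
  · refine ⟨0, k :: l, ?_, ?_⟩
    · intro w; rw [← A_mul_ev]; simp [AA, he]
    · intro a f h0
      rw [W_cons, h0, if_neg he]; omega

theorem W_mulB (a : ℕ) (f : K → ℕ) (hf : ∀ x y, f (x + y) ≤ f x + f y) (x k : K) (l : List K) :
    W a f (x + k) l ≤ f x + W a f k l := by
  have := hf x k
  simp only [W]; omega

/-- the sections of `ev w k l` at the two vertices of level one; their representatives depend only
on the first symbol of the sequence -/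
theorem sectionsU (s : Fin 3) (l : List K) : ∀ k : K, ∃ k0 l0 k1 l1,
    (∀ w : Sq, w 0 = s → ∀ t, ev w k l (false :: t) = par l :: ev (sh w) k0 l0 t) ∧
    (∀ w : Sq, w 0 = s → ∀ t, ev w k l (true :: t) = (!par l) :: ev (sh w) k1 l1 t) ∧
    (∀ (a : ℕ) (f : K → ℕ), f 0 = 0 → (∀ x y, f (x + y) ≤ f x + f y) →
      W a f k0 l0 + W a f k1 l1 ≤ cost a f s k + (l.map (cost a f s)).sum) ∧
    W 1 nz k0 l0 ≤ N k l ∧ W 1 nz k1 l1 ≤ N k l := by
  induction l with
  | nil =>
    intro k
    obtain ⟨k', l', h1, h2⟩ := mulA (phi s k) 0 []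
    refine ⟨k', l', k, [], ?_, ?_, ?_, ?_, ?_⟩
    · intro w hw t
      rw [ev_nil, B_false, h1, ev_nil, B_zero, mul_one, hw]; rfl
    · intro w _ t
      rw [ev_nil, ev_nil, B_true]; rfl
    · intro a f h0 hf
      have := h2 a f h0
      simp only [W, List.map_nil, List.sum_nil, cost, h0] at this ⊢
      omega
    · have h3 := h2 1 nz nz_zero
      have h4 := nz_phi s k
      simp only [W, List.map_nil, List.sum_nil, N, nz_zero] at h3 ⊢
      omega
    · simp [W, N]
  | cons x l ih =>
    intro k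
    obtain ⟨k0, l0, k1, l1, h0, h1, hW, hN0, hN1⟩ := ih x
    have hnz := nz_phi s k
    cases hp : par l with
    | false =>
      obtain ⟨k', l', hA, hA'⟩ := mulA (phi s k) k1 l1
      refine ⟨k + k0, l0, k', l', ?_, ?_, ?_, ?_, ?_⟩
      · intro w hw t
        rw [ev_cons, Equiv.Perm.mul_apply, Equiv.Perm.mul_apply, h0 w hw t, hp, A_cons]
        simp only [Bool.not_false, B_true, par, hp]
        rw [← B_mul_ev]; rfl
      · intro w hw t
        rw [ev_cons, Equiv.Perm.mul_apply, Equiv.Perm.mul_apply, h1 w hw t, hp, A_cons, hA]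
        simp only [Bool.not_false, Bool.not_true, B_false, par, hp, hw]
        rfl
      · intro a f hf0 hf
        have e1 := hW a f hf0 hf
        have e2 := hA' a f hf0
        have e3 := W_mulB a f hf k k0 l0
        simp only [List.map_cons, List.sum_cons, cost] at *
        omega
      · have e3 := W_mulB 1 nz nz_add k k0 l0
        rw [N_cons]; omega
      · have e2 := hA' 1 nz nz_zero
        rw [N_cons]; omega
    | true =>
      obtain ⟨k', l', hA, hA'⟩ := mulA (phi s k) k0 l0
      refine ⟨k', l', k + k1, l1, ?_, ?_, ?_, ?_, ?_⟩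
      · intro w hw t
        rw [ev_cons, Equiv.Perm.mul_apply, Equiv.Perm.mul_apply, h0 w hw t, hp, A_cons, hA]
        simp only [Bool.not_true, B_false, par, hp, hw]
        rfl
      · intro w hw t
        rw [ev_cons, Equiv.Perm.mul_apply, Equiv.Perm.mul_apply, h1 w hw t, hp, A_cons]
        simp only [Bool.not_false, Bool.not_true, B_true, par, hp]
        rw [← B_mul_ev]; rfl
      · intro a f hf0 hf
        have e1 := hW a f hf0 hf
        have e2 := hA' a f hf0
        have e3 := W_mulB a f hf k k1 l1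
        simp only [List.map_cons, List.sum_cons, cost] at *
        omega
      · have e2 := hA' 1 nz nz_zero
        rw [N_cons]; omega
      · have e3 := W_mulB 1 nz nz_add k k1 l1
        rw [N_cons]; omega

/-- the sections of `ev w k l` at the two vertices of level one -/
theorem sections (w : Sq) (l : List K) (k : K) : ∃ k0 l0 k1 l1,
    (∀ t, ev w k l (false :: t) = par l :: ev (sh w) k0 l0 t) ∧
    (∀ t, ev w k l (true :: t) = (!par l) :: ev (sh w) k1 l1 t) ∧
    (∀ (a : ℕ) (f : K → ℕ), f 0 = 0 → (∀ x y, f (x + y) ≤ f x + f y) →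
      W a f k0 l0 + W a f k1 l1 ≤ cost a f (w 0) k + (l.map (cost a f (w 0))).sum) ∧
    W 1 nz k0 l0 ≤ N k l ∧ W 1 nz k1 l1 ≤ N k l := by
  obtain ⟨k0, l0, k1, l1, h0, h1, h2⟩ := sectionsU (w 0) l k
  exact ⟨k0, l0, k1, l1, h0 w rfl, h1 w rfl, h2⟩

theorem ev_ext_nil (w : Sq) (k : K) (l : List K) : ev w k l [] = [] := by
  induction l generalizing k with
  | nil => rw [ev_nil]; rfl
  | cons x l ih =>
    rw [ev_cons, Equiv.Perm.mul_apply, Equiv.Perm.mul_apply, ih]; rfl

/-- product of two representatives -/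
theorem mul_rep (w : Sq) (k' : K) (l' : List K) (l : List K) : ∀ k : K, ∃ k2 l2,
    ev w k2 l2 = ev w k l * ev w k' l' ∧ ∀ (a : ℕ) (f : K → ℕ), (∀ x y, f (x + y) ≤ f x + f y) →
      W a f k2 l2 ≤ W a f k l + W a f k' l' := by
  induction l with
  | nil =>
    intro k
    refine ⟨k + k', l', ?_, ?_⟩
    · rw [ev_nil, B_mul_ev]
    · intro a f hf
      have := W_mulB a f hf k k' l'
      simp only [W, List.map_nil, List.sum_nil] at *
      omega
  | cons x l ih =>
    intro k
    obtain ⟨k2, l2, h1, h2⟩ := ih x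
    refine ⟨k, k2 :: l2, ?_, ?_⟩
    · rw [ev_cons, ev_cons, h1]; simp only [mul_assoc]
    · intro a f hf
      have := h2 a f hf
      rw [W_cons, W_cons]; omega

/-- inverse of a representative -/
theorem inv_rep (w : Sq) (l : List K) : ∀ k : K, ∃ k2 l2,
    ev w k2 l2 = (ev w k l)⁻¹ ∧ ∀ (a : ℕ) (f : K → ℕ), f 0 = 0 →
      (∀ x y, f (x + y) ≤ f x + f y) → W a f k2 l2 ≤ W a f k l := by
  induction l with
  | nil =>
    intro k
    exact ⟨k, [], by rw [ev_nil, B_inv], fun a f _ _ => le_refl _⟩
  | cons x l ih =>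
    intro k
    obtain ⟨k2, l2, h1, h2⟩ := ih x
    obtain ⟨k3, l3, h3, h4⟩ := mul_rep w 0 [k] l2 k2
    refine ⟨k3, l3, ?_, ?_⟩
    · rw [h3, h1, ev_cons w k x l, mul_inv_rev, mul_inv_rev, B_inv, A_inv, ev_cons, B_zero,
        one_mul, ev_nil, mul_assoc]
    · intro a f h0 hf
      have e1 := h2 a f h0 hf
      have e2 := h4 a f hf
      rw [W_cons] at e2 ⊢
      simp only [W, List.map_nil, List.sum_nil, h0] at *
      omega

theorem dec_of_par {w : Sq} {k : K} {l : List K} (hp : par l = false) : ∃ k0 l0 k1 l1,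
    Dec (ev w k l) (ev (sh w) k0 l0) (ev (sh w) k1 l1) ∧
    (∀ (a : ℕ) (f : K → ℕ), f 0 = 0 → (∀ x y, f (x + y) ≤ f x + f y) →
      W a f k0 l0 + W a f k1 l1 ≤ cost a f (w 0) k + (l.map (cost a f (w 0))).sum) ∧
    W 1 nz k0 l0 ≤ N k l ∧ W 1 nz k1 l1 ≤ N k l := by
  obtain ⟨k0, l0, k1, l1, h0, h1, h2, h3, h4⟩ := sections w l k
  rw [hp] at h0 h1
  exact ⟨k0, l0, k1, l1, ⟨ev_ext_nil w k l, h0, h1⟩, h2, h3, h4⟩

theorem par_of_fix {w : Sq} {k : K} {l : List K} {t : V} {t' : V}
    (h : ev w k l (false :: t) = false :: t') : par l = false := by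
  obtain ⟨k0, l0, k1, l1, h0, _⟩ := sections w l k
  rw [h0] at h
  exact (List.cons.inj h).1

end Pool.Agent.SlowLaws
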