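import Pool.Agent.SlowLaws.Laws

/-!
# Short elements killed by the words, and the words are nontrivial
-/

set_option autoImplicit false

namespace Pool.Agent.SlowLaws

/-- `g` is a product of at most `n` generators -/
def Short (w : Sq) (n : ℕ) (g : Equiv.Perm V) : Prop := ∃ k l, ev w k l = g ∧ W 1 nz k l ≤ n

theorem Short.mul {w : Sq} {n m : ℕ} {g h : Equiv.Perm V} (hg : Short w n g) (hh : Short w m h) :
    Short w (n + m) (g * h) := by
  obtain ⟨k, l, rfl, h1⟩ := hg
  obtain ⟨k', l', rfl, h2⟩ := hh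
  obtain ⟨k2, l2, h3, h4⟩ := mul_rep w k' l' l k
  exact ⟨k2, l2, h3, (h4 1 nz nz_add).trans (by omega)⟩

theorem Short.inv {w : Sq} {n : ℕ} {g : Equiv.Perm V} (hg : Short w n g) : Short w n g⁻¹ := by
  obtain ⟨k, l, rfl, h1⟩ := hg
  obtain ⟨k2, l2, h3, h4⟩ := inv_rep w l k
  exact ⟨k2, l2, h3, (h4 1 nz nz_zero nz_add).trans h1⟩

theorem Short.one (w : Sq) (n : ℕ) : Short w n 1 :=
  ⟨0, [], by rw [ev_nil, B_zero], by simp [W, nz]⟩

theorem Short.mono {w : Sq} {n m : ℕ} {g : Equiv.Perm V} (hg : Short w n g) (h : n ≤ m) :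
    Short w m g := by
  obtain ⟨k, l, h1, h2⟩ := hg
  exact ⟨k, l, h1, h2.trans h⟩

theorem Short.A (w : Sq) : Short w 1 A :=
  ⟨0, [0], by rw [← A_mul_ev, ev_nil, B_zero, mul_one], by simp [W, nz]⟩

theorem Short.B (w : Sq) (k : K) : Short w 1 (B w k) :=
  ⟨k, [], ev_nil w k, by simp [W, nz_le_one]⟩

theorem Short.mem {w : Sq} {n : ℕ} {g : Equiv.Perm V} (hg : Short w n g) : g ∈ G w := by
  obtain ⟨k, l, rfl, _⟩ := hg
  exact ev_mem w k l

theorem Short.Fw {w : Sq} {n : ℕ} {g h : Equiv.Perm V} (hg : Short w n g) (hh : Short w n h) :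
    Short w (8 * n) (Fw g h) :=
  ((((hg.mul hg).mul (hh.mul hh)).mul (hg.mul hg).inv).mul (hh.mul hh).inv).mono (by omega)

theorem short_Vw {w : Sq} {R : ℕ} (i : ℕ) : ∀ f : ℕ → Equiv.Perm V, (∀ n, Short w R (f n)) →
    Short w (8 ^ i * R) (FreeGroup.lift f (Vw i)) := by
  induction i with
  | zero =>
    intro f hf
    show Short w _ (FreeGroup.lift f (FreeGroup.of 0))
    rw [FreeGroup.lift_apply_of]
    exact (hf 0).mono (by simp)
  | succ i ih =>
    intro f hf
    rw [lift_Vw_succ]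
    refine (Short.Fw (ih (fun n => f (2 * n)) (fun n => hf _))
      (ih (fun n => f (2 * n + 1)) (fun n => hf _))).mono (le_of_eq ?_)
    rw [pow_succ]; ring

theorem Dec.eq_eq {g a b a' b' : Equiv.Perm V} (h : Dec g a b) (h' : Dec g a' b') :
    a = a' ∧ b = b' := by
  constructor
  · ext t : 1
    have := h.2.1 t
    rw [h'.2.1 t] at this
    exact (List.cons.inj this).2.symm
  · ext t : 1
    have := h.2.2 t
    rw [h'.2.2 t] at this
    exact (List.cons.inj this).2.symm

/-- an element of length at most `2 ^ m` which fixes level `m` has order at most two -/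
theorem sq_trivial (m : ℕ) : ∀ (w : Sq) (n : ℕ) (g : Equiv.Perm V), n ≤ 2 ^ m → Short w n g →
    g ∈ D m Set.univ → g * g = 1 := by
  induction m with
  | zero =>
    intro w n g hn hs _
    obtain ⟨k, l, rfl, h⟩ := hs
    have hn1 : n ≤ 1 := by simpa using hn
    match l with
    | [] => rw [ev_nil]; exact B_mul_self w k
    | x :: l =>
      rw [W_cons] at h
      have hk : nz k = 0 := by omega
      have hW : W 1 nz x l = 0 := by omega
      match l with
      | [] =>
        have hx : nz x = 0 := by simpa [W] using hW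
        have hnz : ∀ y : K, nz y = 0 → y = 0 := by decide
        rw [hnz k hk, hnz x hx, ← A_mul_ev, ev_nil, B_zero, mul_one, A_mul_A]
      | y :: l => rw [W_cons] at hW; omega
  | succ m ih =>
    intro w n g hn hs hg
    obtain ⟨g0, hg0, g1, hg1, hd⟩ := hg
    obtain ⟨k, l, rfl, h⟩ := hs
    have hp : par l = false := par_of_fix (hd.2.1 [])
    obtain ⟨k0, l0, k1, l1, hd', _, hN0, hN1⟩ := dec_of_par (w := w) (k := k) hp
    obtain ⟨e0, e1⟩ := hd.eq_eq hd'
    have h2N := two_N_le k l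
    rw [pow_succ] at hn
    have i0 := ih (sh w) (2 ^ m) g0 le_rfl ⟨k0, l0, e0.symm, by omega⟩ hg0
    have i1 := ih (sh w) (2 ^ m) g1 le_rfl ⟨k1, l1, e1.symm, by omega⟩ hg1
    have hdd := hd.mul hd
    rw [i0, i1] at hdd
    exact hdd.unique Dec.one

/-- the words `w i = V_{i+1} V_{i+1}` -/
def ww (i : ℕ) : FreeGroup ℕ := Vw (i + 1) * Vw (i + 1)

/-- the word `ww i` vanishes on all elements of length at most `R`, if the first `i + 1` runs are
long enough -/
theorem ww_vanish {w : Sq} {m : ℕ → ℕ} (hm : Runs w m) {R i : ℕ}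
    (hR : 8 ^ (i + 1) * R ≤ 2 ^ m (i + 1)) (f : ℕ → Equiv.Perm V) (hf : ∀ n, Short w R (f n)) :
    FreeGroup.lift f (ww i) = 1 := by
  rw [ww, map_mul]
  exact sq_trivial (m (i + 1)) w _ _ hR (short_Vw (i + 1) f hf)
    (D_mono _ (Set.subset_univ _) (Vw_mem_D hm (i + 1) f (fun n => (hf n).mem)))

/-! ### the words are nontrivial -/

theorem toWord_map_mem {f : ℕ → ℕ} {x : FreeGroup ℕ} {p : ℕ × Bool}
    (hp : p ∈ (FreeGroup.map f x).toWord) : ∃ n, p.1 = f n := by
  have h1 : FreeGroup.map f x = FreeGroup.mk (x.toWord.map fun q => (f q.1, q.2)) := by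
    conv_lhs => rw [← FreeGroup.mk_toWord (x := x)]
    rw [FreeGroup.map.mk]
  rw [h1, FreeGroup.toWord_mk] at hp
  have h2 := (FreeGroup.reduce.red (L := x.toWord.map fun q => (f q.1, q.2))).sublist.subset hp
  rw [List.mem_map] at h2
  obtain ⟨q, _, rfl⟩ := h2
  exact ⟨q.1, rfl⟩

theorem not_commute {P Q : FreeGroup ℕ} (hP : P ≠ 1) (hQ : Q ≠ 1)
    (hPe : ∀ p ∈ P.toWord, ∃ n, p.1 = 2 * n) (hQo : ∀ p ∈ Q.toWord, ∃ n, p.1 = 2 * n + 1) :
    P * Q ≠ Q * P := by
  intro h
  have key : ∀ x ∈ P.toWord, ∀ y ∈ Q.toWord, x.1 ≠ y.1 := by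
    intro x hx y hy hxy
    obtain ⟨n, hn⟩ := hPe x hx
    obtain ⟨n', hn'⟩ := hQo y hy
    omega
  have r1 : FreeGroup.IsReduced (P.toWord ++ Q.toWord) := by
    rw [FreeGroup.IsReduced, List.isChain_append]
    refine ⟨FreeGroup.isReduced_toWord, FreeGroup.isReduced_toWord, fun x hx y hy hxy => ?_⟩
    exact absurd hxy (key x (List.mem_of_getLast? hx) y (List.mem_of_head? hy))
  have r2 : FreeGroup.IsReduced (Q.toWord ++ P.toWord) := by
    rw [FreeGroup.IsReduced, List.isChain_append]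
    refine ⟨FreeGroup.isReduced_toWord, FreeGroup.isReduced_toWord, fun x hx y hy hxy => ?_⟩
    exact absurd hxy.symm (key y (List.mem_of_head? hy) x (List.mem_of_getLast? hx))
  have h2 := congrArg FreeGroup.toWord h
  rw [FreeGroup.toWord_mul, FreeGroup.toWord_mul, r1.reduce_eq, r2.reduce_eq] at h2
  have hP' : P.toWord ≠ [] := fun e => hP (by rwa [FreeGroup.toWord_eq_nil_iff] at e)
  have hQ' : Q.toWord ≠ [] := fun e => hQ (by rwa [FreeGroup.toWord_eq_nil_iff] at e)
  obtain ⟨a, P', ha⟩ := List.exists_cons_of_ne_nil hP'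
  obtain ⟨b, Q', hb⟩ := List.exists_cons_of_ne_nil hQ'
  rw [ha, hb] at h2
  have := (List.cons.inj h2).1
  exact key a (by rw [ha]; simp) b (by rw [hb]; simp) (by rw [this])

theorem sq_ne_one {x : FreeGroup ℕ} (hx : x ≠ 1) : x * x ≠ 1 := by
  intro h
  apply hx
  have : x ^ 2 = 1 := by rw [pow_two]; exact h
  exact (pow_eq_one_iff_left (by norm_num)).mp this

theorem Vw_ne_one (i : ℕ) : Vw i ≠ 1 := by
  induction i with
  | zero => exact FreeGroup.of_ne_one 0
  | succ i ih =>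
    intro h
    set x := FreeGroup.map (fun n => 2 * n) (Vw i) with hx
    set y := FreeGroup.map (fun n => 2 * n + 1) (Vw i) with hy
    have hx1 : x ≠ 1 := by
      intro e
      apply ih
      apply FreeGroup.map_injective (f := fun n : ℕ => 2 * n)
        (fun a b hab => by simpa using hab)
      rw [map_one]; exact e
    have hy1 : y ≠ 1 := by
      intro e
      apply ih
      apply FreeGroup.map_injective (f := fun n : ℕ => 2 * n + 1)
        (fun a b hab => by simpa using hab)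
      rw [map_one]; exact e
    have hxx : x * x = FreeGroup.map (fun n => 2 * n) (Vw i * Vw i) := by rw [map_mul]
    have hyy : y * y = FreeGroup.map (fun n => 2 * n + 1) (Vw i * Vw i) := by rw [map_mul]
    refine not_commute (sq_ne_one hx1) (sq_ne_one hy1) ?_ ?_ ?_
    · intro p hp
      rw [hxx] at hp
      exact toWord_map_mem hp
    · intro p hp
      rw [hyy] at hp
      exact toWord_map_mem hp
    · have h' : x * x * (y * y) * (x * x)⁻¹ * (y * y)⁻¹ = 1 := h
      rw [mul_inv_eq_one, mul_inv_eq_iff_eq_mul] at h'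
      exact h'

theorem ww_ne_one (i : ℕ) : ww i ≠ 1 := sq_ne_one (Vw_ne_one (i + 1))

theorem norm_Fw_le (x y : FreeGroup ℕ) (n : ℕ) (hx : x.norm ≤ n) (hy : y.norm ≤ n) :
    (Fw x y).norm ≤ 8 * n := by
  have h1 := FreeGroup.norm_mul_le x x
  have h2 := FreeGroup.norm_mul_le y y
  have h3 := FreeGroup.norm_mul_le (x * x) (y * y)
  have h4 := FreeGroup.norm_mul_le (x * x * (y * y)) (x * x)⁻¹
  have h5 := FreeGroup.norm_mul_le (x * x * (y * y) * (x * x)⁻¹) (y * y)⁻¹
  rw [FreeGroup.norm_inv_eq] at h4 h5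
  show (x * x * (y * y) * (x * x)⁻¹ * (y * y)⁻¹).norm ≤ _
  omega

theorem norm_map_le (f : ℕ → ℕ) (x : FreeGroup ℕ) : (FreeGroup.map f x).norm ≤ x.norm := by
  have h1 : FreeGroup.map f x = FreeGroup.mk (x.toWord.map fun q => (f q.1, q.2)) := by
    conv_lhs => rw [← FreeGroup.mk_toWord (x := x)]
    rw [FreeGroup.map.mk]
  rw [h1]
  refine (FreeGroup.norm_mk_le).trans ?_
  rw [List.length_map]; rfl

theorem norm_Vw_le (i : ℕ) : (Vw i).norm ≤ 8 ^ i := by
  induction i with
  | zero => exact le_of_eq (FreeGroup.norm_of 0)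
  | succ i ih =>
    refine (norm_Fw_le _ _ (8 ^ i) ((norm_map_le _ _).trans ih)
      ((norm_map_le _ _).trans ih)).trans (le_of_eq ?_)
    rw [pow_succ]; ring

/-- the word `ww i` has length at most `2 * 8 ^ (i + 1)` -/
theorem norm_ww_le (i : ℕ) : (ww i).norm ≤ 2 * 8 ^ (i + 1) := by
  have h1 := FreeGroup.norm_mul_le (Vw (i + 1)) (Vw (i + 1))
  have h2 := norm_Vw_le (i + 1)
  show (Vw (i + 1) * Vw (i + 1)).norm ≤ _
  omega

end Pool.Agent.SlowLaws
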